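import Mathlib

/-!
# Project EOW of helper35, job EOW-LATW: comparison of the boxes `n b` and `b`, abstract form
-/

set_option autoImplicit false

open Finset

namespace Pool.Agent.Q53.EOW

/-- the numbers of points and the sums of the weights over the boxes `n b` and `b` -/
theorem comb {W : Type*} [AddCommGroup W] (L : AddSubgroup W) (G : ℕ → Finset W)
    (hmono : ∀ a c : ℕ, a ≤ c → G a ⊆ G c) (hGL : ∀ s, ∀ x ∈ G s, x ∈ L) (h0 : ∀ s, (0 : W) ∈ G s)
    (n b d : ℕ) (hn : ∀ x : W, n • x = 0 → x = 0) (hd : d ≤ b) (Fs : Finset W)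
    (h2 : ∀ z ∈ L, ∃ r ∈ Fs, ∃ x ∈ L, z = n • x + r)
    (h3 : ∀ r ∈ Fs, ∀ x ∈ G (b - d), n • x + r ∈ G (n * b))
    (h4 : ∀ r ∈ Fs, ∀ x ∈ L, n • x + r ∈ G (n * b) → x ∈ G (b + d)) :
    ∃ q : ℕ, 1 ≤ q ∧
      (∀ (F : W → ℝ) (Th : Finset W) (δ : ℝ), (∀ x, 0 ≤ F x) → (∀ x, F x ≤ 1) → 0 ≤ δ →
        (∀ r ∈ Fs, ∀ x ∈ G (b - d), x ≠ 0 → n • x + r ∉ Th → |F (n • x + r) - F x| ≤ δ) →
        |∑ x ∈ G (n * b), F x - q * ∑ x ∈ G b, F x| ≤
          2 * q * (((G (b + d)).card : ℝ) - (G (b - d)).card) +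
            (q + (Th.card : ℝ) + δ * (q * ((G b).card : ℝ)))) ∧
      |((G (n * b)).card : ℝ) - q * ((G b).card : ℝ)| ≤
          2 * q * (((G (b + d)).card : ℝ) - (G (b - d)).card) := by
  classical
  -- the multiples of `n`
  let H : AddSubgroup W := L.map (nsmulAddMonoidHom n)
  have hHm : ∀ z, z ∈ H ↔ ∃ x ∈ L, n • x = z := by
    intro z
    simp only [H, AddSubgroup.mem_map, nsmulAddMonoidHom_apply]
  obtain ⟨π, hπ⟩ : ∃ π : W → W ⧸ H, π = fun z => (QuotientAddGroup.mk z : W ⧸ H) := ⟨_, rfl⟩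
  have hπe : ∀ z z', π z = π z' ↔ z' - z ∈ H := by
    intro z z'
    rw [hπ]
    simp only
    rw [QuotientAddGroup.eq, neg_add_eq_sub]
  obtain ⟨T, hT⟩ : ∃ T : Finset (W ⧸ H), T = Fs.image π := ⟨_, rfl⟩
  have hch : ∀ c : W ⧸ H, ∃ r : W, c ∈ T → r ∈ Fs ∧ π r = c := by
    intro c
    by_cases hc : c ∈ T
    · rw [hT, mem_image] at hc
      obtain ⟨r, hr, hrc⟩ := hc
      exact ⟨r, fun _ => ⟨hr, hrc⟩⟩
    · exact ⟨0, fun h => absurd h hc⟩
  choose rr hrr using hch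
  -- every element of `L`
  have hdec : ∀ z ∈ L, π z ∈ T ∧ ∃ x ∈ L, z = n • x + rr (π z) := by
    intro z hz
    obtain ⟨r, hr, x, hx, hzr⟩ := h2 z hz
    have e1 : π r = π z := by
      rw [hπe, hzr]
      rw [add_sub_cancel_right, hHm]
      exact ⟨x, hx, rfl⟩
    have hT1 : π z ∈ T := by
      rw [hT, ← e1]
      exact mem_image_of_mem _ hr
    refine ⟨hT1, ?_⟩
    have h5 := (hrr (π z) hT1).2
    rw [hπe, hHm] at h5
    obtain ⟨y, hy, hyz⟩ := h5
    exact ⟨y, hy, by rw [hyz]; abel⟩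
  have hq1 : 1 ≤ T.card := by
    have := (hdec 0 L.zero_mem).1
    exact card_pos.2 ⟨_, this⟩
  -- the points of the big box in a class
  obtain ⟨A, hA⟩ : ∃ A : W ⧸ H → Finset W, A = fun c => (G (n * b)).filter fun z => π z = c := ⟨_, rfl⟩
  obtain ⟨e, he⟩ : ∃ e : W ⧸ H → W → W, e = fun c x => n • x + rr c := ⟨_, rfl⟩
  have hinj : ∀ c, Function.Injective (e c) := by
    intro c x y hxy
    rw [he] at hxy
    simp only at hxy
    have : n • (x - y) = 0 := by
      rw [smul_sub, sub_eq_zero]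
      exact add_right_cancel hxy
    exact sub_eq_zero.1 (hn _ this)
  have hπe' : ∀ c ∈ T, ∀ x ∈ L, π (e c x) = c := by
    intro c hc x hx
    have h5 := (hrr c hc).2
    rw [← h5, hπe, he, h5]
    simp only
    rw [show rr c - (n • x + rr c) = n • (-x) by rw [smul_neg]; abel, hHm]
    exact ⟨-x, L.neg_mem hx, rfl⟩
  have hsub1 : ∀ c ∈ T, (G (b - d)).image (e c) ⊆ A c := by
    intro c hc z hz
    rw [mem_image] at hz
    obtain ⟨x, hx, rfl⟩ := hz
    rw [hA, mem_filter]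
    refine ⟨?_, hπe' c hc x (hGL _ x hx)⟩
    rw [he]
    exact h3 _ (hrr c hc).1 x hx
  have hsub2 : ∀ c ∈ T, A c ⊆ (G (b + d)).image (e c) := by
    intro c hc z hz
    rw [hA, mem_filter] at hz
    obtain ⟨-, x, hx, hzx⟩ := hdec z (hGL _ z hz.1)
    rw [hz.2] at hzx
    rw [mem_image]
    refine ⟨x, h4 _ (hrr c hc).1 x hx (by rw [← hzx]; exact hz.1), ?_⟩
    rw [he, hzx]
  have hfib : ∀ F : W → ℝ, ∑ z ∈ G (n * b), F z = ∑ c ∈ T, ∑ z ∈ A c, F z := by
    intro F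
    rw [hA]
    exact (sum_fiberwise_of_maps_to (fun z hz => (hdec z (hGL _ z hz)).1) F).symm
  obtain ⟨gm, hgm⟩ : ∃ g : ℝ, g = ((G (b - d)).card : ℝ) := ⟨_, rfl⟩
  obtain ⟨gp, hgp⟩ : ∃ g : ℝ, g = ((G (b + d)).card : ℝ) := ⟨_, rfl⟩
  have hbd : G (b - d) ⊆ G (b + d) := hmono _ _ (by omega)
  have hkey : ∀ F : W → ℝ, (∀ x, 0 ≤ F x) → (∀ x, F x ≤ 1) → ∀ c ∈ T,
      |∑ z ∈ A c, F z - ∑ x ∈ G b, F x| ≤ 2 * (gp - gm) + ∑ x ∈ G (b - d), |F (e c x) - F x| := by
    intro F hF0 hF1 c hc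
    have i1 : ∑ x ∈ G (b - d), F (e c x) ≤ ∑ z ∈ A c, F z := by
      rw [← sum_image (f := F) (g := e c) fun x _ y _ h => hinj c h]
      exact sum_le_sum_of_subset_of_nonneg (hsub1 c hc) fun z _ _ => hF0 z
    have i2 : ∑ z ∈ A c, F z ≤ ∑ x ∈ G (b + d), F (e c x) := by
      rw [← sum_image (f := F) (g := e c) fun x _ y _ h => hinj c h]
      exact sum_le_sum_of_subset_of_nonneg (hsub2 c hc) fun z _ _ => hF0 z
    have i3 : ∀ F' : W → ℝ, (∀ x, 0 ≤ F' x) → (∀ x, F' x ≤ 1) → ∀ X Y : Finset W, X ⊆ Y →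
        ∑ x ∈ Y, F' x ≤ ∑ x ∈ X, F' x + ((Y.card : ℝ) - X.card) := by
      intro F' hF0' hF1' X Y hXY
      rw [← sum_sdiff hXY]
      have h5 : ∑ x ∈ Y \ X, F' x ≤ ((Y \ X).card : ℝ) := by
        have := sum_le_card_nsmul (Y \ X) F' 1 fun x _ => hF1' x
        simpa using this
      have h6 : ((Y \ X).card : ℝ) = (Y.card : ℝ) - X.card := by
        rw [card_sdiff_of_subset hXY, Nat.cast_sub (card_le_card hXY)]
      linarith
    have i4 := i3 (fun x => F (e c x)) (fun x => hF0 _) (fun x => hF1 _) _ _ hbd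
    rw [← hgp, ← hgm] at i4
    have i5 : ∑ x ∈ G (b - d), F x ≤ ∑ x ∈ G b, F x :=
      sum_le_sum_of_subset_of_nonneg (hmono _ _ (by omega)) fun z _ _ => hF0 z
    have i6 : ∑ x ∈ G b, F x ≤ ∑ x ∈ G (b - d), F x + (gp - gm) := by
      have h5 := i3 F hF0 hF1 _ _ hbd
      rw [← hgp, ← hgm] at h5
      refine le_trans ?_ h5
      exact sum_le_sum_of_subset_of_nonneg (hmono _ _ (by omega)) fun z _ _ => hF0 z
    have i7 : |∑ x ∈ G (b - d), F (e c x) - ∑ x ∈ G (b - d), F x| ≤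
        ∑ x ∈ G (b - d), |F (e c x) - F x| := by
      rw [← sum_sub_distrib]
      exact abs_sum_le_sum_abs _ _
    have i8 := abs_le.1 i7
    rw [abs_le]
    constructor
    · linarith [i8.1]
    · linarith [i8.2]
  have hgen : ∀ F : W → ℝ, (∀ x, 0 ≤ F x) → (∀ x, F x ≤ 1) →
      |∑ x ∈ G (n * b), F x - T.card * ∑ x ∈ G b, F x| ≤
        2 * T.card * (gp - gm) + ∑ c ∈ T, ∑ x ∈ G (b - d), |F (e c x) - F x| := by
    intro F hF0 hF1
    have e1 : (T.card : ℝ) * ∑ x ∈ G b, F x = ∑ _c ∈ T, ∑ x ∈ G b, F x := by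
      rw [sum_const, nsmul_eq_mul]
    rw [hfib, e1, ← sum_sub_distrib]
    refine (abs_sum_le_sum_abs _ _).trans ((sum_le_sum fun c hc => hkey F hF0 hF1 c hc).trans ?_)
    rw [sum_add_distrib, sum_const, nsmul_eq_mul]
    apply le_of_eq
    ring
  refine ⟨T.card, hq1, ?_, ?_⟩
  · intro F Th δ hF0 hF1 hδ hF
    have h5 := hgen F hF0 hF1
    rw [← hgp, ← hgm]
    refine h5.trans (add_le_add le_rfl ?_)
    -- the pairs
    have h6 : ∀ c ∈ T, ∀ x ∈ G (b - d), |F (e c x) - F x| ≤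
        (if x = 0 then (1 : ℝ) else 0) + (if e c x ∈ Th then (1 : ℝ) else 0) + δ := by
      intro c hc x hx
      have h7 : |F (e c x) - F x| ≤ 1 := by
        rw [abs_le]
        constructor <;> linarith [hF0 x, hF1 x, hF0 (e c x), hF1 (e c x)]
      by_cases hx0 : x = 0
      · rw [if_pos hx0]
        have : (0 : ℝ) ≤ if e c x ∈ Th then (1 : ℝ) else 0 := by split_ifs <;> norm_num
        linarith
      · rw [if_neg hx0]
        by_cases hth : e c x ∈ Th
        · rw [if_pos hth]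
          linarith
        · rw [if_neg hth]
          have h8 : |F (e c x) - F x| ≤ δ := by
            rw [he] at hth ⊢
            exact hF _ (hrr c hc).1 x hx hx0 hth
          linarith
    refine (sum_le_sum fun c hc => sum_le_sum fun x hx => h6 c hc x hx).trans ?_
    simp only [sum_add_distrib]
    have h7 : ∑ _c ∈ T, ∑ x ∈ G (b - d), (if x = 0 then (1 : ℝ) else 0) ≤ T.card := by
      rw [sum_const, nsmul_eq_mul, sum_ite_eq', if_pos (h0 _), mul_one]
    have h8 : ∑ c ∈ T, ∑ x ∈ G (b - d), (if e c x ∈ Th then (1 : ℝ) else 0) ≤ Th.card := by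
      have h9 : ∀ c ∈ T, ∑ x ∈ G (b - d), (if e c x ∈ Th then (1 : ℝ) else 0) ≤
          ((Th.filter fun z => π z = c).card : ℝ) := by
        intro c hc
        rw [← sum_filter, sum_const, nsmul_eq_mul, mul_one]
        have h10 : ((G (b - d)).filter fun x => e c x ∈ Th).card ≤ (Th.filter fun z => π z = c).card := by
          refine card_le_card_of_injOn (e c) ?_ fun x _ y _ h => hinj c h
          intro x hx
          rw [mem_coe, mem_filter] at hx
          rw [mem_coe, mem_filter]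
          exact ⟨hx.2, hπe' c hc x (hGL _ x hx.1)⟩
        exact_mod_cast h10
      refine (sum_le_sum h9).trans ?_
      have h10 : ∑ c ∈ T, (Th.filter fun z => π z = c).card ≤ Th.card := by
        rw [← card_biUnion]
        · refine card_le_card fun z hz => ?_
          rw [mem_biUnion] at hz
          obtain ⟨c, -, hz⟩ := hz
          exact (mem_filter.1 hz).1
        · intro c _ c' _ hcc
          rw [Function.onFun, disjoint_left]
          intro z hz hz'
          rw [mem_filter] at hz hz'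
          exact hcc (hz.2.symm.trans hz'.2)
      exact_mod_cast h10
    have h9 : ∑ _c ∈ T, ∑ _x ∈ G (b - d), δ ≤ δ * (T.card * ((G b).card : ℝ)) := by
      rw [sum_const, sum_const, nsmul_eq_mul, nsmul_eq_mul]
      have h10 : ((G (b - d)).card : ℝ) ≤ (G b).card := by
        exact_mod_cast card_le_card (hmono _ _ (by omega))
      have h11 : (T.card : ℝ) * (((G (b - d)).card : ℝ) * δ) ≤ T.card * (((G b).card : ℝ) * δ) := by gcongr
      linarith
    linarith
  · have h5 := hgen (fun _ => 1) (fun _ => zero_le_one) (fun _ => le_rfl)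
    simp only [sum_const, nsmul_eq_mul, mul_one, sub_self, abs_zero, mul_zero, add_zero] at h5
    rw [← hgp, ← hgm]
    exact h5

end Pool.Agent.Q53.EOW
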