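import Pool.Agent.Q53.EOW.Step

/-!
# Project EOW of helper35, job EOW-LATW: sums of weights over lattice points in boxes
-/

set_option autoImplicit false

open NumberField Finset
open Pool.Agent.Q35.MM (bx dg mem_bx)
open Pool.Agent.Q35.EO
open Pool.Agent.Q35.EOW

namespace Pool.Agent.Q53.EOW

/-- mean weights of two nested sets -/
theorem near {u u' g g' : ℝ} (hg : 0 < g) (hgg : g ≤ g') (hu0 : 0 ≤ u) (hu : u ≤ g) (huu : u ≤ u')
    (hd : u' - u ≤ g' - g) : |u' / g' - u / g| ≤ (g' - g) / g := by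
  have hg' : 0 < g' := by linarith
  have h1 : u' / g' - u / g = ((u' - u) * g - u * (g' - g)) / (g' * g) := by
    field_simp
    ring
  rw [h1, abs_div, abs_of_pos (by positivity : 0 < g' * g), div_le_div_iff₀ (by positivity) hg]
  have h2 : |(u' - u) * g - u * (g' - g)| ≤ (g' - g) * g := by
    have e1 : (u' - u) * g ≤ (g' - g) * g := mul_le_mul_of_nonneg_right hd hg.le
    have e2 : 0 ≤ (u' - u) * g := mul_nonneg (by linarith) hg.le
    have e3 : u * (g' - g) ≤ (g' - g) * g := by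
      have := mul_le_mul_of_nonneg_right hu (sub_nonneg.2 hgg)
      linarith
    have e4 : 0 ≤ u * (g' - g) := mul_nonneg hu0 (by linarith)
    rw [abs_le]
    constructor <;> linarith
  have h3 := mul_le_mul_of_nonneg_right h2 hg.le
  have h4 : (g' - g) * g * g ≤ (g' - g) * (g' * g) := by
    have e1 : 0 ≤ (g' - g) * g := mul_nonneg (by linarith) hg.le
    have e2 := mul_le_mul_of_nonneg_left hgg e1
    linarith
  exact h3.trans h4

/-- JOB EOW-LATW -/
theorem latw (hLAT : S_LAT) (hTHL : S_THL) : S_LATW := by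
  intro K _ _ N r I c0 S Λ hI hc0 hr hΛ
  classical
  obtain ⟨CL, hCL1, hL⟩ := hLAT K N r I c0 hI hc0
  obtain ⟨C8, C7, η, m0, hC8, hC7, hη, hm0, hmul⟩ := mult hLAT hTHL K N r I c0 S Λ hI hc0 hr hΛ
  obtain ⟨R, hR⟩ : ∃ R : ℕ, R = dg K * r := ⟨_, rfl⟩
  obtain ⟨C11, hC11⟩ : ∃ C11 : ℝ, C11 = 3 ^ R * (R * m0 + CL) := ⟨_, rfl⟩
  have hC110 : 0 ≤ C11 := by
    rw [hC11]
    positivity
  refine ⟨C8 + CL + 2 * C7, min η 1, by linarith, lt_min hη one_pos, ?_⟩
  intro t ht w hw V σ ρ B hV hσ hspan hρ hρB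
  have hσ0 : (0 : ℝ) < σ := by exact_mod_cast hσ
  have hρ8 : C8 * (σ : ℝ) ≤ ρ := by
    refine le_trans ?_ hρ
    gcongr
    linarith
  have hρL : CL * (σ : ℝ) ≤ ρ := by
    refine le_trans ?_ hρ
    gcongr
    linarith
  have hσρ : (σ : ℝ) ≤ ρ := by
    refine le_trans ?_ hρL
    nlinarith
  have hρ0 : (0 : ℝ) < ρ := by linarith
  have hρ1 : 1 ≤ ρ := by exact_mod_cast hρ0
  have hρB' : (ρ : ℝ) ≤ B := by exact_mod_cast hρB
  have hB0 : (0 : ℝ) < B := by linarith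
  obtain ⟨a, ha⟩ : ∃ a : ℕ → ℝ, a = fun s => nuw I t N V w s / nug K I t N V s := ⟨_, rfl⟩
  have hgpos : ∀ s, (0 : ℝ) < (nug K I t N V s : ℝ) := by
    intro s
    rw [nug_eq]
    exact_mod_cast card_pos.2 ⟨0, zero_mem_Gx hc0 ht s⟩
  have hgmono : ∀ s s' : ℕ, s ≤ s' → (nug K I t N V s : ℝ) ≤ nug K I t N V s' := by
    intro s s' h
    rw [nug_eq, nug_eq]
    exact_mod_cast card_le_card (Gx_mono hc0 ht h)
  have hu0 : ∀ s, 0 ≤ nuw I t N V w s := by
    intro s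
    rw [nuw_eq]
    exact sum_nonneg fun x _ => hw.nonneg x
  have hu1 : ∀ s, nuw I t N V w s ≤ nug K I t N V s := by
    intro s
    rw [nuw_eq, nug_eq]
    have := sum_le_card_nsmul (Gx I t N V s) w 1 fun x _ => hw.le_one x
    simpa using this
  have hudiff : ∀ s s' : ℕ, s ≤ s' → nuw I t N V w s ≤ nuw I t N V w s' ∧
      nuw I t N V w s' - nuw I t N V w s ≤ nug K I t N V s' - nug K I t N V s := by
    intro s s' h
    have hsub : Gx I t N V s ⊆ Gx I t N V s' := Gx_mono hc0 ht h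
    rw [nuw_eq, nuw_eq, nug_eq, nug_eq]
    refine ⟨sum_le_sum_of_subset_of_nonneg hsub fun x _ _ => hw.nonneg x, ?_⟩
    rw [← sum_sdiff hsub, add_sub_cancel_right]
    have h5 : ∑ x ∈ Gx I t N V s' \ Gx I t N V s, w x ≤ ((Gx I t N V s' \ Gx I t N V s).card : ℝ) := by
      have := sum_le_card_nsmul (Gx I t N V s' \ Gx I t N V s) w 1 fun x _ => hw.le_one x
      simpa using this
    have h6 : ((Gx I t N V s' \ Gx I t N V s).card : ℝ) = ((Gx I t N V s').card : ℝ) - (Gx I t N V s).card := by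
      rw [card_sdiff_of_subset hsub, Nat.cast_sub (card_le_card hsub)]
    linarith
  -- comparison of the mean weights
  have hcmp : |a B - a ρ| ≤ 2 * C7 * ((σ : ℝ) / ρ) ^ η := by
    refine le_of_forall_pos_le_add fun ε hε => ?_
    obtain ⟨T, hT⟩ := exists_nat_gt (C11 / ε)
    have hT0 : (0 : ℝ) < T := lt_of_le_of_lt (div_nonneg hC110 hε.le) hT
    have hT1 : 1 ≤ T := by exact_mod_cast hT0
    obtain ⟨n2, hn2⟩ : ∃ n2 : ℕ, n2 = 1 + m0 * T := ⟨_, rfl⟩
    obtain ⟨T1, hT1'⟩ : ∃ T1 : ℕ, T1 = (n2 * B / ρ - 1) / m0 := ⟨_, rfl⟩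
    obtain ⟨n1, hn1⟩ : ∃ n1 : ℕ, n1 = 1 + m0 * T1 := ⟨_, rfl⟩
    have hn2B : n2 ≤ n2 * B / ρ := by
      rw [Nat.le_div_iff_mul_le (by omega)]
      exact Nat.mul_le_mul_left _ hρB
    have hn2pos : 1 ≤ n2 := by omega
    have hn1le : n1 ≤ n2 * B / ρ := by
      have h1 : m0 * T1 ≤ n2 * B / ρ - 1 := by
        rw [hT1']
        exact Nat.mul_div_le _ _
      omega
    have hn1gt : n2 * B / ρ < n1 + m0 := by
      have h1 : n2 * B / ρ - 1 < m0 * T1 + m0 := by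
        rw [hT1']
        have := Nat.lt_mul_div_succ (n2 * B / ρ - 1) (show 0 < m0 by omega)
        rwa [Nat.mul_succ] at this
      omega
    have hTT : T ≤ T1 := by
      rw [hT1', Nat.le_div_iff_mul_le (by omega)]
      have : T * m0 = m0 * T := mul_comm _ _
      omega
    have hn1T : T ≤ n1 := by
      have : T1 ≤ m0 * T1 := Nat.le_mul_of_pos_left _ (by omega)
      omega
    have hn1m : m0 ≤ n1 := by
      have : m0 * 1 ≤ m0 * T1 := Nat.mul_le_mul_left _ (by omega)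
      omega
    have hs1 : n1 * ρ ≤ n2 * B := by
      rw [Nat.le_div_iff_mul_le (by omega)] at hn1le
      exact hn1le
    have hs2 : n2 * B ≤ (n1 + m0) * ρ := by
      have h1 := Nat.div_lt_iff_lt_mul (show 0 < ρ by omega) |>.1 hn1gt
      omega
    have hc1 : Nat.Coprime n1 m0 := by
      rw [hn1]
      exact (Nat.coprime_add_mul_left_left 1 m0 T1).2 (Nat.coprime_one_left m0)
    have hc2 : Nat.Coprime n2 m0 := by
      rw [hn2]
      exact (Nat.coprime_add_mul_left_left 1 m0 T).2 (Nat.coprime_one_left m0)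
    have k1 := hmul t ht w hw V σ ρ n1 hV hσ hspan hρ8 (by omega) hc1
    have k2 := hmul t ht w hw V σ B n2 hV hσ hspan (hρ8.trans hρB') hn2pos hc2
    have k3 := near (hgpos (n1 * ρ)) (hgmono _ _ hs1) (hu0 _) (hu1 _) (hudiff _ _ hs1).1 (hudiff _ _ hs1).2
    have hn1r : (0 : ℝ) < n1 := by
      have : (T : ℝ) ≤ n1 := by exact_mod_cast hn1T
      linarith
    have hL1 : CL * (σ : ℝ) ≤ ((n1 * ρ : ℕ) : ℝ) := by
      push_cast
      have : (1 : ℝ) ≤ n1 := by exact_mod_cast (show 1 ≤ n1 by omega)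
      nlinarith
    have k4 := hL t ht V σ (n1 * ρ) ((n1 + m0) * ρ) hV hσ hspan hL1 (hs1.trans hs2)
    rw [← hR] at k4
    have hs0 : (0 : ℝ) < ((n1 * ρ : ℕ) : ℝ) := by
      push_cast
      positivity
    have k5 := gap R _ _ ((n1 * ρ : ℕ) : ℝ) (((n1 + m0) * ρ : ℕ) : ℝ) σ CL hs0
      (by exact_mod_cast hs1.trans hs2) (by
        have : (n1 + m0) * ρ ≤ 3 * (n1 * ρ) := by
          rw [← mul_assoc]
          exact Nat.mul_le_mul_right _ (by omega)
        exact_mod_cast this) (hgpos _).le (by positivity) k4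
    have k6 : (nug K I t N V (n2 * B) : ℝ) ≤ nug K I t N V ((n1 + m0) * ρ) := hgmono _ _ hs2
    have k7 : ((nug K I t N V (n2 * B) : ℝ) - nug K I t N V (n1 * ρ)) / nug K I t N V (n1 * ρ) ≤ C11 / n1 := by
      rw [div_le_iff₀ (hgpos _)]
      have e1 : (((n1 + m0) * ρ : ℕ) : ℝ) - ((n1 * ρ : ℕ) : ℝ) = m0 * ρ := by
        push_cast
        ring
      have e2 : (m0 : ℝ) * ρ / ((n1 * ρ : ℕ) : ℝ) = m0 / n1 := by
        push_cast
        field_simp
      have e3 : CL * σ / ((n1 * ρ : ℕ) : ℝ) ≤ CL / n1 := by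
        push_cast
        rw [div_le_div_iff₀ (by positivity) hn1r]
        have : CL * σ * n1 ≤ CL * ρ * n1 := by gcongr
        linarith
      rw [e1, e2] at k5
      have e4 : 3 ^ R * ((R : ℝ) * (m0 / n1) + CL * σ / ((n1 * ρ : ℕ) : ℝ)) ≤ C11 / n1 := by
        have e5 : 3 ^ R * ((R : ℝ) * (m0 / n1) + CL * σ / ((n1 * ρ : ℕ) : ℝ)) ≤
            3 ^ R * ((R : ℝ) * (m0 / n1) + CL / n1) := by gcongr
        refine e5.trans (le_of_eq ?_)
        rw [hC11]
        ring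
      have e5 := mul_le_mul_of_nonneg_right e4 (hgpos (n1 * ρ)).le
      linarith
    have k8 : C11 / n1 ≤ ε := by
      rw [div_le_iff₀ hn1r]
      rw [div_lt_iff₀ hε] at hT
      have : (T : ℝ) ≤ n1 := by exact_mod_cast hn1T
      nlinarith
    have k9 : ((σ : ℝ) / B) ^ η ≤ ((σ : ℝ) / ρ) ^ η := by
      refine Real.rpow_le_rpow (by positivity) ?_ hη.le
      gcongr
    have e1 := abs_le.1 k1
    have e2 := abs_le.1 (k2.trans (mul_le_mul_of_nonneg_left k9 hC7))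
    have e3 := abs_le.1 (k3.trans (k7.trans k8))
    rw [ha]
    simp only
    rw [abs_le]
    constructor <;> linarith [e1.1, e1.2, e2.1, e2.2, e3.1, e3.2]
  have hL2 := hL t ht V σ ρ B hV hσ hspan hρL hρB
  rw [← hR] at hL2 ⊢
  have haB : a B * nug K I t N V B = nuw I t N V w B := by
    rw [ha]
    simp only
    exact div_mul_cancel₀ _ (hgpos B).ne'
  have haρ : a ρ * nug K I t N V ρ = nuw I t N V w ρ := by
    rw [ha]
    simp only
    exact div_mul_cancel₀ _ (hgpos ρ).ne'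
  have haB1 : |a B| ≤ 1 := by
    rw [ha]
    simp only
    rw [abs_of_nonneg (div_nonneg (hu0 B) (hgpos B).le), div_le_one (hgpos B)]
    exact hu1 B
  obtain ⟨P, hP⟩ : ∃ P : ℝ, P = (nug K I t N V ρ : ℝ) * (B : ℝ) ^ R := ⟨_, rfl⟩
  have hP0 : 0 ≤ P := by
    rw [hP]
    positivity
  obtain ⟨x, hx⟩ : ∃ x : ℝ, x = (σ : ℝ) / ρ := ⟨_, rfl⟩
  have hx0 : 0 < x := by
    rw [hx]
    positivity
  have hx1 : x ≤ 1 := by
    rw [hx, div_le_one hρ0]
    exact hσρ
  rw [← hP, ← hx] at hL2 ⊢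
  rw [← hx] at hcmp
  have e1 : x ≤ x ^ min η 1 := by
    have := Real.rpow_le_rpow_of_exponent_ge hx0 hx1 (min_le_right η 1)
    rwa [Real.rpow_one] at this
  have e2 : x ^ η ≤ x ^ min η 1 := Real.rpow_le_rpow_of_exponent_ge hx0 hx1 (min_le_left η 1)
  have e3 : nuw I t N V w B * (ρ : ℝ) ^ R - nuw I t N V w ρ * (B : ℝ) ^ R =
      a B * ((nug K I t N V B : ℝ) * (ρ : ℝ) ^ R - P) + (a B - a ρ) * P := by
    rw [← haB, ← haρ, hP]
    ring
  rw [e3]
  refine (abs_add_le _ _).trans ?_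
  rw [abs_mul, abs_mul, abs_of_nonneg hP0]
  have e4 : |a B| * |(nug K I t N V B : ℝ) * (ρ : ℝ) ^ R - P| ≤ 1 * (CL * x * P) :=
    mul_le_mul haB1 hL2 (abs_nonneg _) zero_le_one
  have e5 : |a B - a ρ| * P ≤ 2 * C7 * x ^ η * P := mul_le_mul_of_nonneg_right hcmp hP0
  have hxp : 0 ≤ x ^ min η 1 := Real.rpow_nonneg hx0.le _
  have e6 : CL * x * P ≤ CL * x ^ min η 1 * P := by gcongr
  have e7 : 2 * C7 * x ^ η * P ≤ 2 * C7 * x ^ min η 1 * P := by gcongr
  have e8 : 0 ≤ C8 * x ^ min η 1 * P := by positivity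
  linarith

end Pool.Agent.Q53.EOW
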