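import Pool.Agent.Q35.EOW.Stm

/-!
# Project EOW of helper35, job EOW-LATW: the distance of a point and of its nearby multiple
-/

set_option autoImplicit false

open NumberField Finset
open Pool.Agent.Q35.EOW

namespace Pool.Agent.Q53.EOW

variable {K : Type} [Field K] [NumberField K]

theorem int_le_one (v : FinitePlace K) (y : 𝓞 K) : v (algebraMap (𝓞 K) K y) ≤ 1 := by
  rw [← FinitePlace.norm_embedding_eq]
  exact FinitePlace.norm_le_one K v.maximalIdeal y

theorem nat_le_one (v : FinitePlace K) (m : ℕ) : v (m : K) ≤ 1 := by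
  have := int_le_one v (m : 𝓞 K)
  rwa [map_natCast] at this

theorem exists_m0 (S : Finset (FinitePlace K)) : ∃ m0 : ℕ, 2 ≤ m0 ∧ ∀ v ∈ S, v (m0 : K) ≤ 1 / 4 := by
  classical
  induction S using Finset.induction_on with
  | empty => exact ⟨2, le_rfl, fun v hv => absurd hv (notMem_empty v)⟩
  | insert w S _ ih =>
    obtain ⟨m, hm, hmS⟩ := ih
    obtain ⟨p, hp⟩ : ∃ p : ℕ, p = Ideal.absNorm w.maximalIdeal.asIdeal := ⟨_, rfl⟩
    have hp0 : p ≠ 0 := by
      rw [hp, Ne, Ideal.absNorm_eq_zero_iff]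
      exact w.maximalIdeal.ne_bot
    have hp1 : w (p : K) < 1 := by
      have h1 := (FinitePlace.norm_lt_one_iff_mem K w.maximalIdeal ((p : ℕ) : 𝓞 K)).2 (by
        rw [hp]
        exact Ideal.absNorm_mem _)
      rw [FinitePlace.norm_embedding_eq, map_natCast] at h1
      exact h1
    obtain ⟨k, hk⟩ := exists_pow_lt_of_lt_one (show (0 : ℝ) < 1 / 4 by norm_num) hp1
    refine ⟨m * p ^ k, ?_, ?_⟩
    · have : 1 ≤ p ^ k := Nat.one_le_iff_ne_zero.mpr (pow_ne_zero _ hp0)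
      nlinarith
    · intro v hv
      push_cast
      rw [map_mul, map_pow]
      have h1 : 0 ≤ v (p : K) := apply_nonneg v _
      have h2 : v (p : K) ≤ 1 := nat_le_one v p
      have h3 : 0 ≤ v (m : K) := apply_nonneg v _
      rcases Finset.mem_insert.1 hv with h | h
      · rw [h]
        have h4 : w (m : K) ≤ 1 := nat_le_one w m
        have h5 : 0 ≤ w (p : K) ^ k := pow_nonneg (apply_nonneg w _) k
        calc w (m : K) * w (p : K) ^ k ≤ 1 * w (p : K) ^ k := mul_le_mul_of_nonneg_right h4 h5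
          _ ≤ 1 / 4 := by rw [one_mul]; exact hk.le
      · calc v (m : K) * v (p : K) ^ k ≤ v (m : K) * 1 :=
            mul_le_mul_of_nonneg_left (pow_le_one₀ h1 h2) h3
          _ ≤ 1 / 4 := by rw [mul_one]; exact hmS v h

omit [Field K] [NumberField K] in
theorem nv_le {m : ℕ} (f : K → ℝ) (x : Fin m → K) (B : ℝ) (hB : 0 ≤ B) (h : ∀ a, f (x a) ≤ B) :
    nv f x ≤ B := Real.iSup_le h hB

omit [Field K] [NumberField K] in
theorem le_nv {m : ℕ} (f : K → ℝ) (x : Fin m → K) (a : Fin m) : f (x a) ≤ nv f x :=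
  le_ciSup (f := fun a => f (x a)) (Set.finite_range _).bddAbove a

theorem dS_le (S : Finset (FinitePlace K)) {m : ℕ} (z x : Fin m → K) (κ κ' ρ ρ' : ℝ) (hκ : 0 < κ)
    (hκ' : 0 < κ') (hρ : 0 ≤ ρ) (hρ' : 0 ≤ ρ')
    (h1 : ∀ φ : K →+* ℂ, ∃ a, κ' ≤ ‖φ (z a)‖) (h2 : ∀ v ∈ S, ∃ a, κ ≤ v (z a))
    (h3 : ∀ (φ : K →+* ℂ) (a : Fin m), ‖φ (z a - x a)‖ ≤ ρ')
    (h4 : ∀ v ∈ S, ∀ a, v (z a - x a) ≤ ρ) :
    dS S z x ≤ Fintype.card (InfinitePlace K) * (ρ' / κ') + S.card * (ρ / κ) := by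
  unfold dS
  refine add_le_add ?_ ?_
  · have h5 : ∀ v ∈ (univ : Finset (InfinitePlace K)), nv (v : K → ℝ) (z - x) / nv (v : K → ℝ) z ≤ ρ' / κ' := by
      intro v _
      refine div_le_div₀ hρ' (nv_le _ _ _ hρ' fun a => ?_) hκ' ?_
      · rw [Pi.sub_apply, ← InfinitePlace.norm_embedding_eq]
        exact h3 v.embedding a
      · obtain ⟨a, ha⟩ := h1 v.embedding
        rw [InfinitePlace.norm_embedding_eq] at ha
        exact ha.trans (le_nv (v : K → ℝ) z a)
    refine (sum_le_card_nsmul _ _ _ h5).trans (le_of_eq ?_)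
    rw [card_univ, nsmul_eq_mul]
  · have h5 : ∀ v ∈ S, nv (v : K → ℝ) (z - x) / nv (v : K → ℝ) z ≤ ρ / κ := by
      intro v hv
      refine div_le_div₀ hρ (nv_le _ _ _ hρ fun a => ?_) hκ ?_
      · rw [Pi.sub_apply]
        exact h4 v hv a
      · obtain ⟨a, ha⟩ := h2 v hv
        exact ha.trans (le_nv (v : K → ℝ) z a)
    refine (sum_le_card_nsmul _ _ _ h5).trans (le_of_eq ?_)
    rw [nsmul_eq_mul]

end Pool.Agent.Q53.EOW
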