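import Pool.Agent.Q166.EO.Lat

/-!
# Project EOW of helper35, job EOW-LATW: real estimates
-/

set_option autoImplicit false

open Pool.Agent.Q166.EO (pow_bound)

namespace Pool.Agent.Q53.EOW

/-- the gap between two boxes of comparable size -/
theorem gap (R : ℕ) (g g' ρ B s C : ℝ) (hρ : 0 < ρ) (hρB : ρ ≤ B) (hB : B ≤ 3 * ρ) (hg : 0 ≤ g)
    (hCs0 : 0 ≤ C * s)
    (h : |g' * ρ ^ R - g * B ^ R| ≤ C * (s / ρ) * (g * B ^ R)) :
    g' - g ≤ 3 ^ R * (R * ((B - ρ) / ρ) + C * s / ρ) * g := by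
  obtain ⟨y, hy⟩ : ∃ y : ℝ, y = (B - ρ) / ρ := ⟨_, rfl⟩
  obtain ⟨x, hx⟩ : ∃ x : ℝ, x = C * s / ρ := ⟨_, rfl⟩
  have hy0 : 0 ≤ y := by
    rw [hy]
    exact div_nonneg (by linarith) hρ.le
  have hy2 : y ≤ 2 := by
    rw [hy, div_le_iff₀ hρ]
    linarith
  have hx0 : 0 ≤ x := by
    rw [hx]
    positivity
  have hBy : B = ρ * (1 + y) := by
    rw [hy]
    field_simp
    ring
  have h1 : g' * ρ ^ R ≤ g * B ^ R * (1 + x) := by
    have h2 := (abs_le.1 h).2
    have h3 : C * (s / ρ) = x := by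
      rw [hx]
      ring
    rw [h3] at h2
    linarith
  rw [hBy, mul_pow] at h1
  have hρR : 0 < ρ ^ R := by positivity
  have h2 : g' ≤ g * (1 + y) ^ R * (1 + x) := by
    have h3 : g * (ρ ^ R * (1 + y) ^ R) * (1 + x) = g * (1 + y) ^ R * (1 + x) * ρ ^ R := by ring
    rw [h3] at h1
    exact le_of_mul_le_mul_right h1 hρR
  have h3 := pow_bound y hy0 hy2 R
  have h4 : (1 + y) ^ R ≤ 3 ^ R := pow_le_pow_left₀ (by linarith) (by linarith) R
  have h5 : g * ((1 + y) ^ R - 1) ≤ g * (y * (R * 3 ^ R)) := mul_le_mul_of_nonneg_left h3 hg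
  have h6 : g * ((1 + y) ^ R * x) ≤ g * (3 ^ R * x) := by gcongr
  rw [← hy, ← hx]
  nlinarith

/-- lower bound for the number of points of a large box -/
theorem lowb (R : ℕ) (g g' ρ B s C : ℝ) (hR : 1 ≤ R) (hρ : 0 < ρ) (hρB : ρ ≤ B) (hg : 1 ≤ g)
    (hCs : 2 * (C * s) ≤ ρ)
    (h : |g' * ρ ^ R - g * B ^ R| ≤ C * (s / ρ) * (g * B ^ R)) :
    B / ρ ≤ 2 * g' := by
  have hB : 0 < B := by linarith
  have h2 := (abs_le.1 h).1
  have h3 : C * (s / ρ) ≤ 1 / 2 := by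
    rw [← mul_div_assoc, div_le_iff₀ hρ]
    linarith
  have h4 : 0 ≤ g * B ^ R := by positivity
  have h5 := mul_le_mul_of_nonneg_right h3 h4
  have h6 : g * B ^ R ≤ 2 * (g' * ρ ^ R) := by linarith
  have h7 : B ^ R ≤ g * B ^ R := by
    have : 0 < B ^ R := by positivity
    nlinarith
  have h8 : (B / ρ) ^ R ≤ 2 * g' := by
    rw [div_pow, div_le_iff₀ (by positivity)]
    linarith
  have h9 : 1 ≤ B / ρ := by
    rw [le_div_iff₀ hρ]
    linarith
  exact (le_self_pow₀ h9 (by omega)).trans h8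

/-- the quotients -/
theorem quo (q g gn u un E E' : ℝ) (hq : 1 ≤ q) (hg : 0 < g) (hu0 : 0 ≤ u) (hu : u ≤ g)
    (h1 : |un - q * u| ≤ E * (q * g)) (h2 : |gn - q * g| ≤ E' * (q * g)) (hE0 : 0 ≤ E) (hE0' : 0 ≤ E')
    (hE : E' ≤ 1 / 2) :
    |un / gn - u / g| ≤ 2 * (E + E') := by
  have hqg : 0 < q * g := by positivity
  have h3 : q * g / 2 ≤ gn := by
    have := (abs_le.1 h2).1
    nlinarith
  have hgn : 0 < gn := by linarith
  have h4 : un / gn - u / g = ((un - q * u) * g - u * (gn - q * g)) / (gn * g) := by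
    field_simp
    ring
  rw [h4, abs_div, abs_of_pos (by positivity : 0 < gn * g), div_le_iff₀ (by positivity)]
  have h5 : |(un - q * u) * g - u * (gn - q * g)| ≤ E * (q * g) * g + g * (E' * (q * g)) := by
    refine (abs_sub _ _).trans ?_
    rw [abs_mul, abs_mul, abs_of_pos hg, abs_of_nonneg hu0]
    exact add_le_add (mul_le_mul_of_nonneg_right h1 hg.le) (mul_le_mul hu h2 (abs_nonneg _) hg.le)
  refine h5.trans ?_
  have h6 : q * g ≤ 2 * gn := by linarith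
  have h7 : (E + E') * g * (q * g) ≤ (E + E') * g * (2 * gn) := by
    refine mul_le_mul_of_nonneg_left h6 ?_
    positivity
  linarith

/-- the parameters -/
theorem param (m0 : ℕ) (hm : 2 ≤ m0) (η1 : ℝ) (h0 : 0 < η1) (h1 : η1 ≤ 1) :
    ∃ η2 : ℝ, 0 < η2 ∧ ∀ X : ℝ, 1 ≤ X → ∃ j : ℕ, ((m0 : ℝ) ^ j) ^ 4 ≤ X ∧
      ((1 / 2 : ℝ) ^ j) ^ η1 ≤ 2 * (1 / X) ^ η2 := by
  have hm' : (2 : ℝ) ≤ m0 := by exact_mod_cast hm
  have hlm : 0 < Real.log m0 := Real.log_pos (by linarith)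
  have hl2 : 0 < Real.log 2 := Real.log_pos (by norm_num)
  refine ⟨η1 * Real.log 2 / (4 * Real.log m0), by positivity, ?_⟩
  obtain ⟨η2, hη2⟩ : ∃ η2 : ℝ, η2 = η1 * Real.log 2 / (4 * Real.log m0) := ⟨_, rfl⟩
  rw [← hη2]
  have hη20 : 0 < η2 := by
    rw [hη2]
    positivity
  intro X hX
  have hX0 : 0 < X := by linarith
  obtain ⟨j, hj1, hj2⟩ := exists_nat_pow_near hX (show (1 : ℝ) < (m0 : ℝ) ^ 4 from
    one_lt_pow₀ (by linarith) (by norm_num))
  refine ⟨j, ?_, ?_⟩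
  · rw [← pow_mul, mul_comm, pow_mul]
    exact hj1
  · have h2 : Real.log X ≤ 4 * (j + 1) * Real.log m0 := by
      have h3 := Real.log_le_log hX0 hj2.le
      rw [← pow_mul, Real.log_pow] at h3
      push_cast at h3
      linarith
    have e1 : ((1 / 2 : ℝ) ^ j) ^ η1 = Real.exp (-(η1 * j * Real.log 2)) := by
      rw [Real.rpow_def_of_pos (by positivity), Real.log_pow, one_div, Real.log_inv]
      congr 1
      ring
    have e2 : (1 / X) ^ η2 = Real.exp (-(η2 * Real.log X)) := by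
      rw [Real.rpow_def_of_pos (by positivity), one_div, Real.log_inv]
      congr 1
      ring
    have e3 : (2 : ℝ) = Real.exp (Real.log 2) := (Real.exp_log (by norm_num)).symm
    rw [e1, e2]
    nth_rewrite 2 [e3]
    rw [← Real.exp_add, Real.exp_le_exp]
    have h3 : η2 * Real.log X ≤ η1 * (j + 1) * Real.log 2 := by
      have h4 := mul_le_mul_of_nonneg_left h2 hη20.le
      refine h4.trans (le_of_eq ?_)
      rw [hη2]
      field_simp
    nlinarith

end Pool.Agent.Q53.EOW
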