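import Pool.Agent.Q35.EOW.Stm
import Pool.Agent.Q166.EO.Lat

/-!
# Project EOW of helper35, job EOW-LATW: small representatives divisible by `M` of the classes modulo `n`
-/

set_option autoImplicit false

open NumberField Finset
open Pool.Agent.Q35.MM (bx dg mem_bx)
open Pool.Agent.Q35.EO

namespace Pool.Agent.Q53.EOW

/-- the lattice of the points of `V` with coordinates in `I` -/
def LV {K : Type} [Field K] [NumberField K] (I : Ideal (𝓞 K)) {N : ℕ} (V : Submodule K (Fin N → K)) :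
    AddSubgroup (Fin N → K) :=
  { carrier := {x | x ∈ V ∧ ∀ a, ∃ y ∈ I, algebraMap (𝓞 K) K y = x a}
    add_mem' := by
      rintro x x' ⟨h1, h2⟩ ⟨h3, h4⟩
      refine ⟨V.add_mem h1 h3, fun a => ?_⟩
      obtain ⟨y, hy, hy'⟩ := h2 a
      obtain ⟨z, hz, hz'⟩ := h4 a
      exact ⟨y + z, I.add_mem hy hz, by rw [map_add, hy', hz']; rfl⟩
    zero_mem' := ⟨V.zero_mem, fun a => ⟨0, I.zero_mem, by simp⟩⟩
    neg_mem' := by
      rintro x ⟨h1, h2⟩
      refine ⟨V.neg_mem h1, fun a => ?_⟩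
      obtain ⟨y, hy, hy'⟩ := h2 a
      exact ⟨-y, I.neg_mem hy, by rw [map_neg, hy']; rfl⟩ }

theorem mem_LV {K : Type} [Field K] [NumberField K] {I : Ideal (𝓞 K)} {N : ℕ}
    {V : Submodule K (Fin N → K)} {x : Fin N → K} :
    x ∈ LV I V ↔ x ∈ V ∧ ∀ a, ∃ y ∈ I, algebraMap (𝓞 K) K y = x a := Iff.rfl

theorem reps (K : Type) [Field K] [NumberField K] (N r : ℕ) (I : Ideal (𝓞 K)) (c0 : ℝ) (hI : I ≠ ⊥)
    (hc0 : 1 ≤ c0) :
    ∃ A : ℕ, 1 ≤ A ∧ ∀ t : (K →+* ℂ) → ℝ, Shp c0 t →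
    ∀ (V : Submodule K (Fin N → K)) (σ : ℕ), Module.finrank K V = r → 1 ≤ σ →
      V ≤ Submodule.span K {x : Fin N → K | x ∈ V ∧ x ∈ bx K N σ} →
    ∀ n M : ℕ, Nat.Coprime n M → 1 ≤ n → 1 ≤ M →
    ∃ Fs : Finset (Fin N → K), (∀ x ∈ Fs, ∃ y ∈ LV I V, x = M • y) ∧
      (∀ x ∈ Fs, ∀ (φ : K →+* ℂ) (a : Fin N), ‖φ (x a)‖ ≤ t φ * ((n * M * (A * σ) : ℕ) : ℝ)) ∧
      ∀ z ∈ LV I V, ∃ x ∈ Fs, ∃ y ∈ LV I V, z = n • y + x := by
  classical
  obtain ⟨q0, hq0, hq0I⟩ : ∃ q0 : ℕ, 1 ≤ q0 ∧ ((q0 : ℕ) : 𝓞 K) ∈ I := by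
    refine ⟨Ideal.absNorm I, ?_, Ideal.absNorm_mem I⟩
    have : Ideal.absNorm I ≠ 0 := by
      rw [Ne, Ideal.absNorm_eq_zero_iff]
      exact hI
    omega
  obtain ⟨Ω, hΩ⟩ : ∃ Ω : ℝ, Ω = ∑ φ : K →+* ℂ, ∑ k, ‖φ (integralBasis K k)‖ := ⟨_, rfl⟩
  have hΩ0 : 0 ≤ Ω := by
    rw [hΩ]
    positivity
  have hΩ1 : ∀ (φ : K →+* ℂ) k, ‖φ (integralBasis K k)‖ ≤ Ω := by
    intro φ k
    rw [hΩ]
    refine le_trans ?_ (Finset.single_le_sum (f := fun φ : K →+* ℂ =>
      ∑ k, ‖φ (integralBasis K k)‖) (fun _ _ => Finset.sum_nonneg fun _ _ => norm_nonneg _)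
      (Finset.mem_univ φ))
    exact Finset.single_le_sum (f := fun k => ‖φ (integralBasis K k)‖)
      (fun _ _ => norm_nonneg _) (Finset.mem_univ k)
  obtain ⟨R, hR⟩ : ∃ R : ℕ, R = dg K * r := ⟨_, rfl⟩
  obtain ⟨C1, hC1⟩ : ∃ C1 : ℝ, C1 = R * q0 * Ω * c0 + 1 := ⟨_, rfl⟩
  have hq0' : (0 : ℝ) < q0 := by exact_mod_cast hq0
  have hC11 : 1 ≤ C1 := by
    rw [hC1]
    have : 0 ≤ (R : ℝ) * q0 * Ω * c0 := by positivity
    linarith
  have hAC : C1 ≤ (⌈C1⌉₊ : ℝ) := Nat.le_ceil C1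
  refine ⟨⌈C1⌉₊, ?_, ?_⟩
  · exact Nat.one_le_iff_ne_zero.mpr (by
      intro h
      rw [h] at hAC
      norm_num at hAC
      linarith)
  obtain ⟨A, hA⟩ : ∃ A : ℕ, A = ⌈C1⌉₊ := ⟨_, rfl⟩
  rw [← hA] at hAC ⊢
  intro t ht V σ hV hσ hspan n M hnM hn hM
  have hσ0 : (0 : ℝ) < σ := by exact_mod_cast hσ
  have htpos : ∀ φ, 0 < t φ := fun φ => lt_of_lt_of_le (by positivity) (ht φ).1
  -- a basis of small vectors
  obtain ⟨b, hbS, hbspan, hbli⟩ :=
    exists_linearIndependent K {x : Fin N → K | x ∈ V ∧ x ∈ bx K N σ}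
  have hbV : ∀ x ∈ b, x ∈ V := fun x hx => (hbS hx).1
  have hspanb : Submodule.span K b = V :=
    le_antisymm (Submodule.span_le.mpr hbV) (hspan.trans (le_of_eq hbspan.symm))
  have hbfin : Finite b := hbli.finite
  have : Fintype b := Fintype.ofFinite b
  obtain ⟨v', hv'⟩ : ∃ v' : b → V, v' = fun x => ⟨x, hbV x x.2⟩ := ⟨_, rfl⟩
  have hv'li : LinearIndependent K v' := by
    refine LinearIndependent.of_comp V.subtype ?_
    rw [hv']
    exact hbli
  have hv'span : ⊤ ≤ Submodule.span K (Set.range v') := by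
    have h1 : (Submodule.span K (Set.range v')).map V.subtype = V := by
      rw [Submodule.map_span, ← Set.range_comp]
      have : (V.subtype ∘ v') = ((↑) : b → Fin N → K) := by
        rw [hv']
        rfl
      rw [this, Subtype.range_coe, hspanb]
    rintro ⟨x, hx⟩ -
    have hx' : x ∈ (Submodule.span K (Set.range v')).map V.subtype := by
      rw [h1]
      exact hx
    obtain ⟨y, hy, hyx⟩ := hx'
    have : y = ⟨x, hx⟩ := Subtype.ext hyx
    rw [← this]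
    exact hy
  let bV : Module.Basis b K V := Module.Basis.mk hv'li hv'span
  have hbVa : ∀ x : b, (bV x : Fin N → K) = x := by
    intro x
    rw [Module.Basis.mk_apply, hv']
  have hcard : Fintype.card b = r := by rw [← hV, Module.finrank_eq_card_basis bV]
  let bQ : Module.Basis (Module.Free.ChooseBasisIndex ℤ (𝓞 K) × b) ℚ V :=
    ((integralBasis K).smulTower bV).isUnitSMul (w := fun _ => (q0 : ℚ))
      (fun _ => isUnit_iff_ne_zero.mpr (by exact_mod_cast hq0'.ne'))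
  have hcardι : Fintype.card (Module.Free.ChooseBasisIndex ℤ (𝓞 K) × b) = R := by
    rw [Fintype.card_prod, hcard, hR, ← Module.finrank_eq_card_basis (integralBasis K)]
  obtain ⟨u, hu⟩ : ∃ u : Module.Free.ChooseBasisIndex ℤ (𝓞 K) × b → (Fin N → K),
    u = fun j => ((bQ j : V) : Fin N → K) := ⟨_, rfl⟩
  have hua : ∀ j a, u j a = (q0 : K) * (integralBasis K j.1 * (j.2 : Fin N → K) a) := by
    intro j a
    rw [hu]
    simp only
    have h1 : bQ j = (q0 : ℚ) • (integralBasis K j.1 • bV j.2) := by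
      rw [Module.Basis.isUnitSMul_apply, Module.Basis.smulTower_apply]
    rw [h1]
    have h2 : (((q0 : ℚ) • (integralBasis K j.1 • bV j.2) : V) : Fin N → K) a =
        (q0 : ℚ) • (integralBasis K j.1 * ((bV j.2 : V) : Fin N → K) a) := rfl
    rw [h2, hbVa, Rat.smul_def]
    push_cast
    rfl
  -- the coordinates
  obtain ⟨gl, hgl⟩ := LinearMap.exists_leftInverse_of_injective
    (V.subtype.restrictScalars ℚ : V →ₗ[ℚ] (Fin N → K))
    (LinearMap.ker_eq_bot.mpr (Submodule.injective_subtype V))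
  have hgl' : ∀ y : V, gl (y : Fin N → K) = y := fun y => LinearMap.congr_fun hgl y
  obtain ⟨q, hq⟩ : ∃ q : (Fin N → K) →ₗ[ℚ] (Module.Free.ChooseBasisIndex ℤ (𝓞 K) × b → ℚ),
    q = (bQ.equivFun : V →ₗ[ℚ] _) ∘ₗ gl := ⟨_, rfl⟩
  have hqV : ∀ y : V, q (y : Fin N → K) = bQ.equivFun y := by
    intro y
    rw [hq, LinearMap.comp_apply, hgl']
    rfl
  have h_L : ∀ x ∈ LV I V, x = ∑ j, q x j • u j := by
    intro x hx
    have hxV := (mem_LV.mp hx).1
    have e : q x = bQ.equivFun ⟨x, hxV⟩ := hqV ⟨x, hxV⟩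
    have h1 := bQ.sum_equivFun ⟨x, hxV⟩
    rw [← e] at h1
    have h2 : ((∑ j, q x j • bQ j : V) : Fin N → K) = x := by rw [h1]
    have h3 : ((∑ j, q x j • bQ j : V) : Fin N → K) = ∑ j, q x j • u j := by
      rw [Submodule.coe_sum, hu]
      rfl
    exact h2.symm.trans h3
  have huL : ∀ j, u j ∈ LV I V := by
    intro j
    rw [mem_LV]
    refine ⟨by rw [hu]; exact (bQ j).2, fun a => ?_⟩
    have hint : IsIntegral ℤ ((j.2 : Fin N → K) a) := ((mem_bx.mp (hbS j.2.2).2) a).1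
    obtain ⟨y, hy⟩ : ∃ y : 𝓞 K, algebraMap (𝓞 K) K y = (j.2 : Fin N → K) a := ⟨⟨_, hint⟩, rfl⟩
    refine ⟨(q0 : 𝓞 K) * (RingOfIntegers.basis K j.1 * y), I.mul_mem_right _ hq0I, ?_⟩
    rw [hua, map_mul, map_mul, map_natCast, ← integralBasis_apply, hy]
  have hqz : ∀ z : Module.Free.ChooseBasisIndex ℤ (𝓞 K) × b → ℤ,
      q (∑ j, z j • u j) = fun j => (z j : ℚ) := by
    intro z
    have h1 : (∑ j, z j • u j) = ((∑ j, (z j : ℚ) • bQ j : V) : Fin N → K) := by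
      rw [Submodule.coe_sum, hu]
      refine Finset.sum_congr rfl fun j _ => ?_
      rw [← Int.cast_smul_eq_zsmul ℚ]
      rfl
    rw [h1, hqV, ← bQ.equivFun_symm_apply, LinearEquiv.apply_symm_apply]
  -- sizes
  have hDu : ∀ (φ : K →+* ℂ) (a : Fin N), ∑ j, ‖φ (u j a)‖ ≤ t φ * (A * σ) := by
    intro φ a
    have h1 : ∀ j, ‖φ (u j a)‖ ≤ q0 * Ω * σ := by
      intro j
      rw [hua, map_mul, map_mul, map_natCast, norm_mul, norm_mul]
      have h2 : ‖((q0 : ℕ) : ℂ)‖ = q0 := by simp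
      have h3 : ‖φ ((j.2 : Fin N → K) a)‖ ≤ σ := ((mem_bx.mp (hbS j.2.2).2) a).2 φ
      have h4 := hΩ1 φ j.1
      rw [h2]
      calc (q0 : ℝ) * (‖φ (integralBasis K j.1)‖ * ‖φ ((j.2 : Fin N → K) a)‖)
          ≤ q0 * (Ω * σ) := by gcongr
        _ = q0 * Ω * σ := by ring
    refine le_trans (Finset.sum_le_sum fun j _ => h1 j) ?_
    rw [Finset.sum_const, Finset.card_univ, hcardι, nsmul_eq_mul]
    have h5 : 1 ≤ c0 * t φ := by
      have := (ht φ).1
      rw [div_le_iff₀ (by linarith)] at this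
      linarith
    have h6 : 0 ≤ (R : ℝ) * (q0 * Ω * σ) := by positivity
    have h7 := mul_le_mul_of_nonneg_left h5 h6
    have h8 : 0 ≤ t φ * σ := mul_nonneg (htpos φ).le hσ0.le
    have h9 : t φ * (C1 * σ) ≤ t φ * (A * σ) := by
      have := htpos φ
      gcongr
    refine le_trans ?_ h9
    rw [hC1]
    linarith
  -- the representatives
  have hn0 : (0 : ℚ) < n := by exact_mod_cast hn
  have hn0' : (0 : ℝ) < n := by exact_mod_cast hn
  have hM0' : (0 : ℝ) < M := by exact_mod_cast hM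
  refine ⟨(bxg K I t N (n * M * (A * σ))).filter fun x => ∃ y ∈ LV I V, x = M • y, ?_, ?_, ?_⟩
  · intro x hx
    exact (mem_filter.1 hx).2
  · intro x hx φ a
    exact ((mem_bxg.1 (mem_filter.1 hx).1) a).2 φ
  · intro z hz
    obtain ⟨α, β, hαβ⟩ : ∃ α β : ℤ, α * n + β * M = 1 := (Nat.isCoprime_iff_coprime.mpr hnM)
    obtain ⟨y, hy⟩ : ∃ y : Fin N → K, y = β • z := ⟨_, rfl⟩
    have hyL : y ∈ LV I V := by
      rw [hy]
      exact (LV I V).zsmul_mem hz β
    obtain ⟨l, hl⟩ : ∃ l : Fin N → K, l = ∑ j, ⌊q y j / n⌋ • u j := ⟨_, rfl⟩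
    have hlL : l ∈ LV I V := by
      rw [hl]
      exact AddSubgroup.sum_mem _ fun j _ => AddSubgroup.zsmul_mem _ (huL j) _
    obtain ⟨y', hy'⟩ : ∃ y' : Fin N → K, y' = y - n • l := ⟨_, rfl⟩
    have hy'L : y' ∈ LV I V := by
      rw [hy']
      exact (LV I V).sub_mem hyL ((LV I V).nsmul_mem hlL n)
    have hqy' : ∀ j, 0 ≤ q y' j ∧ q y' j ≤ n := by
      intro j
      have h1 : q y' j = q y j - n * ⌊q y j / n⌋ := by
        rw [hy', map_sub, map_nsmul, hl, hqz, Pi.sub_apply, Pi.smul_apply, nsmul_eq_mul]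
      have h2 := Int.floor_le (q y j / n)
      have h3 := (Int.lt_floor_add_one (q y j / n)).le
      rw [le_div_iff₀ hn0] at h2
      rw [div_le_iff₀ hn0] at h3
      rw [h1]
      constructor <;> linarith
    have hsz : ∀ (φ : K →+* ℂ) (a : Fin N), ‖φ (y' a)‖ ≤ n * (t φ * (A * σ)) := by
      intro φ a
      have h1 : φ (y' a) = ∑ j, ((q y' j : ℝ) : ℂ) * φ (u j a) := by
        conv_lhs => rw [h_L y' hy'L]
        rw [Finset.sum_apply, map_sum]
        refine Finset.sum_congr rfl fun j _ => ?_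
        rw [Pi.smul_apply, Rat.smul_def, map_mul, map_ratCast]
        push_cast
        rfl
      rw [h1]
      refine (norm_sum_le _ _).trans ?_
      have h2 : ∀ j, ‖((q y' j : ℝ) : ℂ) * φ (u j a)‖ ≤ n * ‖φ (u j a)‖ := by
        intro j
        rw [norm_mul, Complex.norm_real, Real.norm_eq_abs]
        have h3 := hqy' j
        have h4 : (0 : ℝ) ≤ (q y' j : ℝ) := by exact_mod_cast h3.1
        have h5 : (q y' j : ℝ) ≤ n := by exact_mod_cast h3.2
        rw [abs_of_nonneg h4]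
        gcongr
      refine (Finset.sum_le_sum fun j _ => h2 j).trans ?_
      rw [← Finset.mul_sum]
      exact mul_le_mul_of_nonneg_left (hDu φ a) hn0'.le
    refine ⟨M • y', ?_, M • l + α • z, ?_, ?_⟩
    · rw [mem_filter, mem_bxg]
      refine ⟨fun a => ⟨(mem_LV.1 ((LV I V).nsmul_mem hy'L M)).2 a, fun φ => ?_⟩, y', hy'L, rfl⟩
      rw [Pi.smul_apply, nsmul_eq_mul, map_mul, map_natCast, norm_mul]
      have h1 : ‖((M : ℕ) : ℂ)‖ = M := by simp
      rw [h1]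
      have h2 := mul_le_mul_of_nonneg_left (hsz φ a) hM0'.le
      refine h2.trans (le_of_eq ?_)
      push_cast
      ring
    · exact (LV I V).add_mem ((LV I V).nsmul_mem hlL M) ((LV I V).zsmul_mem hz α)
    · have h1 : z = (α * n + β * M) • z := by rw [hαβ, one_smul]
      have h2 : (α * (n : ℤ) + β * (M : ℤ)) • z = n • (α • z) + M • y := by
        rw [hy, add_smul, mul_comm α, mul_comm β, mul_smul, mul_smul, natCast_zsmul, natCast_zsmul]
      rw [hy', smul_sub, smul_add]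
      conv_lhs => rw [h1, h2]
      rw [smul_comm n M l]
      abel

end Pool.Agent.Q53.EOW
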