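import Pool.Agent.Q53.EOW.Comb
import Pool.Agent.Q53.EOW.Reps
import Pool.Agent.Q53.EOW.Lip
import Pool.Agent.Q53.EOW.Real

/-!
# Project EOW of helper35, job EOW-LATW: the mean weight for the boxes `n b` and `b`
-/

set_option autoImplicit false

open NumberField Finset
open Pool.Agent.Q35.MM (bx dg mem_bx)
open Pool.Agent.Q35.EO
open Pool.Agent.Q35.EOW

namespace Pool.Agent.Q53.EOW

variable {K : Type} [Field K] [NumberField K]

open Classical in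
/-- the points of `V` in a box -/
noncomputable def Gx (I : Ideal (𝓞 K)) (t : (K →+* ℂ) → ℝ) (N : ℕ) (V : Submodule K (Fin N → K)) (s : ℕ) :
    Finset (Fin N → K) := (bxg K I t N s).filter fun x => x ∈ V

open Classical in
/-- the small points -/
noncomputable def Tx (S : Finset (FinitePlace K)) (I : Ideal (𝓞 K)) (t : (K →+* ℂ) → ℝ) (N : ℕ)
    (V : Submodule K (Fin N → K)) (κ : ℝ) (B : ℕ) : Finset (Fin N → K) :=
  (bxg K I t N B).filter fun x => x ∈ V ∧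
    ((∃ φ : K →+* ℂ, ∀ a, ‖φ (x a)‖ ≤ κ * B) ∨ ∃ v ∈ S, ∀ a, v (x a) ≤ κ)

theorem mem_Gx {I : Ideal (𝓞 K)} {t : (K →+* ℂ) → ℝ} {N : ℕ} {V : Submodule K (Fin N → K)} {s : ℕ}
    {x : Fin N → K} : x ∈ Gx I t N V s ↔ x ∈ LV I V ∧ ∀ (φ : K →+* ℂ) (a : Fin N), ‖φ (x a)‖ ≤ t φ * s := by
  classical
  unfold Gx
  rw [mem_filter, mem_bxg, mem_LV]
  constructor
  · rintro ⟨h1, h2⟩
    exact ⟨⟨h2, fun a => (h1 a).1⟩, fun φ a => (h1 a).2 φ⟩
  · rintro ⟨⟨h1, h2⟩, h3⟩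
    exact ⟨fun a => ⟨h2 a, fun φ => h3 φ a⟩, h1⟩

theorem mem_Tx {S : Finset (FinitePlace K)} {I : Ideal (𝓞 K)} {t : (K →+* ℂ) → ℝ} {N : ℕ}
    {V : Submodule K (Fin N → K)} {κ : ℝ} {B : ℕ} {x : Fin N → K} :
    x ∈ Tx S I t N V κ B ↔ x ∈ Gx I t N V B ∧
      ((∃ φ : K →+* ℂ, ∀ a, ‖φ (x a)‖ ≤ κ * B) ∨ ∃ v ∈ S, ∀ a, v (x a) ≤ κ) := by
  classical
  unfold Gx Tx
  rw [mem_filter, mem_filter]
  tauto

theorem nug_eq (I : Ideal (𝓞 K)) (t : (K →+* ℂ) → ℝ) (N : ℕ) (V : Submodule K (Fin N → K)) (s : ℕ) :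
    nug K I t N V s = (Gx I t N V s).card := rfl

theorem nuw_eq (I : Ideal (𝓞 K)) (t : (K →+* ℂ) → ℝ) (N : ℕ) (V : Submodule K (Fin N → K))
    (w : (Fin N → K) → ℝ) (s : ℕ) : nuw I t N V w s = ∑ x ∈ Gx I t N V s, w x := rfl

theorem nuthin_eq (S : Finset (FinitePlace K)) (I : Ideal (𝓞 K)) (t : (K →+* ℂ) → ℝ) (N : ℕ)
    (V : Submodule K (Fin N → K)) (κ : ℝ) (B : ℕ) : nuthin S I t N V κ B = (Tx S I t N V κ B).card := rfl

theorem Gx_mono {c0 : ℝ} (hc0 : 1 ≤ c0) {I : Ideal (𝓞 K)} {t : (K →+* ℂ) → ℝ} (ht : Shp c0 t) {N : ℕ}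
    {V : Submodule K (Fin N → K)} {a c : ℕ} (h : a ≤ c) : Gx I t N V a ⊆ Gx I t N V c := by
  intro x hx
  rw [mem_Gx] at hx ⊢
  refine ⟨hx.1, fun φ i => (hx.2 φ i).trans ?_⟩
  have h1 : 0 ≤ t φ := le_trans (by positivity) (ht φ).1
  have h2 : (a : ℝ) ≤ c := by exact_mod_cast h
  gcongr

theorem zero_mem_Gx {c0 : ℝ} (hc0 : 1 ≤ c0) {I : Ideal (𝓞 K)} {t : (K →+* ℂ) → ℝ} (ht : Shp c0 t) {N : ℕ}
    {V : Submodule K (Fin N → K)} (a : ℕ) : (0 : Fin N → K) ∈ Gx I t N V a := by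
  rw [mem_Gx]
  refine ⟨(LV I V).zero_mem, fun φ i => ?_⟩
  have h1 : 0 ≤ t φ := le_trans (by positivity) (ht φ).1
  rw [Pi.zero_apply, map_zero, norm_zero]
  positivity

/-- the Lipschitz estimate -/
theorem lip_est {S : Finset (FinitePlace K)} {I : Ideal (𝓞 K)} {t : (K →+* ℂ) → ℝ} {N : ℕ}
    {V : Submodule K (Fin N → K)} {c0 Λ : ℝ} (hc0 : 1 ≤ c0) (ht : Shp c0 t) (hΛ : 0 ≤ Λ)
    {w : (Fin N → K) → ℝ} (hw : LipV S Λ w) {m0 : ℕ} (hm0 : 2 ≤ m0)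
    (hm0S : ∀ v ∈ S, v (m0 : K) ≤ 1 / 4) {n b j A σ : ℕ} (hn : 1 ≤ n) (hb : 1 ≤ b) {X : ℝ}
    (hX : X * σ = b) (hX4 : ((m0 : ℝ) ^ j) ^ 4 ≤ X)
    {x y r : Fin N → K} (hx : x ≠ 0) (hy : y ∈ LV I V) (hr : r = (m0 ^ j) • y)
    (hr2 : ∀ (φ : K →+* ℂ) (a : Fin N), ‖φ (r a)‖ ≤ t φ * ((n * m0 ^ j * (A * σ) : ℕ) : ℝ))
    (hz : n • x + r ∈ Gx I t N V (n * b)) (hzT : n • x + r ∉ Tx S I t N V ((1 / 2 : ℝ) ^ j) (n * b)) :
    |w (n • x + r) - w x| ≤ Λ * (Fintype.card (InfinitePlace K) * (c0 * A) + S.card) * (1 / 2 : ℝ) ^ j := by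
  obtain ⟨z, hz'⟩ : ∃ z, z = n • x + r := ⟨_, rfl⟩
  rw [← hz'] at hz hzT ⊢
  obtain ⟨κ, hκ⟩ : ∃ κ : ℝ, κ = (1 / 2 : ℝ) ^ j := ⟨_, rfl⟩
  rw [← hκ] at hzT ⊢
  have hκ0 : 0 < κ := by
    rw [hκ]
    positivity
  have hn0 : (0 : ℝ) < n := by exact_mod_cast hn
  have hb0 : (0 : ℝ) < b := by exact_mod_cast hb
  have hm' : (2 : ℝ) ≤ m0 := by exact_mod_cast hm0
  rw [mem_Tx] at hzT
  push Not at hzT
  obtain ⟨hT1, hT2⟩ := hzT hz
  push_cast at hT1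
  have hnx : n • x ≠ 0 := by
    intro h
    apply hx
    have hnK : (n : K) ≠ 0 := by exact_mod_cast (show n ≠ 0 by omega)
    funext a
    have h1 := congrFun h a
    rw [Pi.smul_apply, nsmul_eq_mul, Pi.zero_apply, mul_eq_zero] at h1
    exact h1.resolve_left hnK
  have hz0 : z ≠ 0 := by
    intro h
    obtain ⟨φ⟩ : Nonempty (K →+* ℂ) := inferInstance
    obtain ⟨a, ha⟩ := hT1 φ
    rw [h, Pi.zero_apply, map_zero, norm_zero] at ha
    have : 0 < κ * (n * b) := by positivity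
    linarith
  have hwx : w (n • x) = w x := by
    have h1 := hw.smul (n : K) x (by exact_mod_cast (show n ≠ 0 by omega))
    rw [← h1]
    congr 1
    funext a
    rw [Pi.smul_apply, Pi.smul_apply, nsmul_eq_mul, smul_eq_mul]
  rw [← hwx]
  refine (hw.lip z (n • x) hz0 hnx).trans ?_
  rw [mul_assoc]
  refine mul_le_mul_of_nonneg_left ?_ hΛ
  have hzx : ∀ a, z a - (n • x) a = r a := by
    intro a
    rw [hz', Pi.add_apply]
    ring
  obtain ⟨M, hM⟩ : ∃ M : ℝ, M = (m0 : ℝ) ^ j := ⟨_, rfl⟩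
  have hM0 : 0 < M := by
    rw [hM]
    positivity
  have h1 := dS_le S z (n • x) κ (κ * (n * b)) ((1 / 4 : ℝ) ^ j) (c0 * (n * M * (A * σ))) hκ0
    (by positivity) (by positivity) (by positivity) (fun φ => (hT1 φ).imp fun a h => h.le)
    (fun v hv => (hT2 v hv).imp fun a h => h.le) (by
      intro φ a
      rw [hzx]
      refine (hr2 φ a).trans ?_
      push_cast
      rw [← hM]
      have := (ht φ).2
      gcongr) (by
      intro v hv a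
      rw [hzx, hr, Pi.smul_apply, nsmul_eq_mul, map_mul]
      push_cast
      rw [map_pow]
      obtain ⟨y', -, hy'⟩ := (mem_LV.1 hy).2 a
      have h2 : v (y a) ≤ 1 := by
        rw [← hy']
        exact int_le_one v y'
      have h3 : v (m0 : K) ^ j ≤ (1 / 4 : ℝ) ^ j := pow_le_pow_left₀ (apply_nonneg v _) (hm0S v hv) j
      calc v (m0 : K) ^ j * v (y a) ≤ (1 / 4 : ℝ) ^ j * 1 :=
            mul_le_mul h3 h2 (apply_nonneg v _) (by positivity)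
        _ = (1 / 4 : ℝ) ^ j := mul_one _)
  refine h1.trans ?_
  rw [add_mul]
  have h2j : κ * 2 ^ j = 1 := by
    rw [hκ, ← mul_pow]
    norm_num
  have hκM : M * (2 : ℝ) ^ j * 2 ^ j ≤ X := by
    have h2 : (2 : ℝ) ^ j ≤ M := by
      rw [hM]
      exact pow_le_pow_left₀ (by norm_num) hm' j
    have h3 : 1 ≤ M := by
      rw [hM]
      exact one_le_pow₀ (by linarith)
    calc M * (2 : ℝ) ^ j * 2 ^ j ≤ M * M * M := by gcongr
      _ ≤ M * M * M * M := by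
        have h4 : 0 ≤ M * M * M := by positivity
        nlinarith
      _ = M ^ 4 := by ring
      _ ≤ X := by
        rw [hM]
        exact hX4
  refine add_le_add ?_ ?_
  · rw [mul_assoc ((Fintype.card (InfinitePlace K) : ℕ) : ℝ)]
    refine mul_le_mul_of_nonneg_left ?_ (Nat.cast_nonneg _)
    rw [div_le_iff₀ (by positivity), ← hX]
    -- `M ≤ κ κ X`
    have h4 : M ≤ κ * κ * X := by
      have h5 := mul_le_mul_of_nonneg_left hκM (show 0 ≤ κ * κ by positivity)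
      have h6 : κ * κ * (M * 2 ^ j * 2 ^ j) = M * (κ * 2 ^ j) * (κ * 2 ^ j) := by ring
      rw [h6, h2j, mul_one, mul_one] at h5
      exact h5
    have h5 := mul_le_mul_of_nonneg_left h4 (show 0 ≤ c0 * (n * (A * (σ : ℝ))) by positivity)
    calc c0 * (n * M * (A * σ)) = c0 * (n * (A * (σ : ℝ))) * M := by ring
      _ ≤ c0 * (n * (A * (σ : ℝ))) * (κ * κ * X) := h5
      _ = c0 * A * κ * (κ * (n * (X * σ))) := by ring
  · refine mul_le_mul_of_nonneg_left ?_ (Nat.cast_nonneg _)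
    rw [div_le_iff₀ hκ0, hκ, ← mul_pow]
    norm_num

end Pool.Agent.Q53.EOW
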