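import Pool.Agent.Q53.EOW.Mult

/-!
# Project EOW of helper35, job EOW-LATW: the mean weight for the boxes `n b` and `b` (continued)
-/

set_option autoImplicit false

open NumberField Finset
open Pool.Agent.Q35.MM (bx dg mem_bx)
open Pool.Agent.Q35.EO
open Pool.Agent.Q35.EOW

namespace Pool.Agent.Q53.EOW

/-- squares -/
theorem sq_le_of {a c X : ℝ} (_ha : 0 ≤ a) (hc : 0 ≤ c) (h1 : a ^ 2 ≤ X) (h2 : c * c ≤ X) : a * c ≤ X := by
  have hX : 0 ≤ X := (sq_nonneg a).trans h1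
  have h3 : (a * c) ^ 2 ≤ X ^ 2 := by
    calc (a * c) ^ 2 = a ^ 2 * (c * c) := by ring
      _ ≤ X * X := mul_le_mul h1 h2 (mul_nonneg hc hc) hX
      _ = X ^ 2 := by ring
  exact le_of_sq_le_sq h3 hX

theorem mult (hLAT : S_LAT) (hTHL : S_THL) (K : Type) [Field K] [NumberField K] (N r : ℕ)
    (I : Ideal (𝓞 K)) (c0 : ℝ) (S : Finset (FinitePlace K)) (Λ : ℝ) (hI : I ≠ ⊥) (hc0 : 1 ≤ c0)
    (hr : 1 ≤ r) (hΛ : 0 ≤ Λ) :
    ∃ (C C' η : ℝ) (m0 : ℕ), 1 ≤ C ∧ 0 ≤ C' ∧ 0 < η ∧ 2 ≤ m0 ∧ ∀ t : (K →+* ℂ) → ℝ, Shp c0 t →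
    ∀ w : (Fin N → K) → ℝ, LipV S Λ w →
    ∀ (V : Submodule K (Fin N → K)) (σ b n : ℕ), Module.finrank K V = r → 1 ≤ σ →
      V ≤ Submodule.span K {x : Fin N → K | x ∈ V ∧ x ∈ bx K N σ} → C * (σ : ℝ) ≤ b → 1 ≤ n →
      Nat.Coprime n m0 →
      |nuw I t N V w (n * b) / nug K I t N V (n * b) - nuw I t N V w b / nug K I t N V b| ≤
        C' * ((σ : ℝ) / b) ^ η := by
  classical
  obtain ⟨CL, hCL1, hL⟩ := hLAT K N r I c0 hI hc0
  obtain ⟨CT, η, hCT1, hη, hT⟩ := hTHL K N r I c0 S hI hc0 hr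
  obtain ⟨A, hA1, hA⟩ := reps K N r I c0 hI hc0
  obtain ⟨m0, hm0, hm0S⟩ := exists_m0 S
  obtain ⟨η1, hη1⟩ : ∃ η1 : ℝ, η1 = min η 1 := ⟨_, rfl⟩
  have hη10 : 0 < η1 := by
    rw [hη1]
    exact lt_min hη one_pos
  have hη11 : η1 ≤ 1 := by
    rw [hη1]
    exact min_le_right _ _
  have hη1η : η1 ≤ η := by
    rw [hη1]
    exact min_le_left _ _
  obtain ⟨η2, hη2, hpar⟩ := param m0 hm0 η1 hη10 hη11
  obtain ⟨R, hR⟩ : ∃ R : ℕ, R = dg K * r := ⟨_, rfl⟩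
  have hR1 : 1 ≤ R := by
    have h1 : 0 < dg K := Module.finrank_pos
    rw [hR]
    exact Nat.mul_pos h1 hr
  obtain ⟨C3, hC3⟩ : ∃ C3 : ℝ, C3 = 3 ^ R * (4 * R * A + 2 * CL) := ⟨_, rfl⟩
  have hC30 : 0 ≤ C3 := by
    rw [hC3]
    positivity
  obtain ⟨D0, hD0⟩ : ∃ D0 : ℕ, D0 = ⌈2 * CL⌉₊ := ⟨_, rfl⟩
  have hD0' : 2 * CL ≤ D0 := by
    rw [hD0]
    exact Nat.le_ceil _
  obtain ⟨C9, hC9⟩ : ∃ C9 : ℝ, C9 = Λ * (Fintype.card (InfinitePlace K) * (c0 * A) + S.card) := ⟨_, rfl⟩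
  have hC90 : 0 ≤ C9 := by
    rw [hC9]
    positivity
  obtain ⟨C10, hC10⟩ : ∃ C10 : ℝ, C10 = 2 * C3 + 2 * D0 + 2 * CT + C9 := ⟨_, rfl⟩
  have hC100 : 0 ≤ C10 := by
    rw [hC10]
    positivity
  obtain ⟨C8, hC8⟩ : ∃ C8 : ℝ, C8 = (2 * (A : ℝ)) ^ 2 + 2 * CL + (4 * C3) ^ 2 + D0 + CT ^ 2 + 1 := ⟨_, rfl⟩
  have hC81 : 1 ≤ C8 := by
    rw [hC8]
    have : 0 ≤ (2 * (A : ℝ)) ^ 2 + 2 * CL + (4 * C3) ^ 2 + D0 + CT ^ 2 := by positivity
    linarith
  refine ⟨C8, 2 * (C10 + 2 * C3) * 2, η2, m0, hC81, by positivity, hη2, hm0, ?_⟩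
  intro t ht w hw V σ b n hV hσ hspan hb hn hcop
  have hσ0 : (0 : ℝ) < σ := by exact_mod_cast hσ
  have hb0 : (0 : ℝ) < b := lt_of_lt_of_le (by positivity) hb
  have hb1 : 1 ≤ b := by exact_mod_cast hb0
  have hn0 : (0 : ℝ) < n := by exact_mod_cast hn
  have hn1 : (1 : ℝ) ≤ n := by exact_mod_cast hn
  obtain ⟨X, hX⟩ : ∃ X : ℝ, X = (b : ℝ) / σ := ⟨_, rfl⟩
  have hXσ : X * σ = b := by
    rw [hX]
    field_simp
  have hX8 : C8 ≤ X := by
    rw [hX, le_div_iff₀ hσ0]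
    exact hb
  have hX1 : 1 ≤ X := hC81.trans hX8
  have hX0 : 0 < X := by linarith
  obtain ⟨j, hj1, hj2⟩ := hpar X hX1
  obtain ⟨M, hM⟩ : ∃ M : ℝ, M = (m0 : ℝ) ^ j := ⟨_, rfl⟩
  obtain ⟨κ, hκ⟩ : ∃ κ : ℝ, κ = (1 / 2 : ℝ) ^ j := ⟨_, rfl⟩
  have hm' : (2 : ℝ) ≤ m0 := by exact_mod_cast hm0
  have hM1 : 1 ≤ M := by
    rw [hM]
    exact one_le_pow₀ (by linarith)
  have hM2 : (2 : ℝ) ^ j ≤ M := by
    rw [hM]
    exact pow_le_pow_left₀ (by norm_num) hm' j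
  have hM4 : M ^ 4 ≤ X := by
    rw [hM]
    exact hj1
  have hMM : M * M ≤ X := by
    refine le_trans ?_ hM4
    calc M * M = M ^ 2 := by ring
      _ ≤ M ^ 4 := pow_le_pow_right₀ hM1 (by norm_num)
  have hκ0 : 0 < κ := by
    rw [hκ]
    positivity
  have hκ1 : κ ≤ 1 := by
    rw [hκ]
    exact pow_le_one₀ (by norm_num) (by norm_num)
  have h2κ : κ * 2 ^ j = 1 := by
    rw [hκ, ← mul_pow]
    norm_num
  -- `M / X ≤ κ`, `1 / X ≤ κ`
  have hMκ : M ≤ κ * X := by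
    have h1 : M * 2 ^ j ≤ X := le_trans (by gcongr) hMM
    calc M = κ * (M * 2 ^ j) := by rw [mul_comm M, ← mul_assoc, h2κ, one_mul]
      _ ≤ κ * X := by gcongr
  have hXκ : 1 ≤ κ * X := hM1.trans hMκ
  -- the size of `X`
  have hbig : (2 * (A : ℝ)) ^ 2 ≤ X ∧ 2 * CL ≤ X ∧ (4 * C3) ^ 2 ≤ X ∧ (D0 : ℝ) ≤ X ∧ CT ^ 2 ≤ X := by
    rw [hC8] at hX8
    have p1 : 0 ≤ (2 * (A : ℝ)) ^ 2 := by positivity
    have p2 : 0 ≤ 2 * CL := by linarith
    have p3 : 0 ≤ (4 * C3) ^ 2 := by positivity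
    have p4 : (0 : ℝ) ≤ D0 := by positivity
    have p5 : 0 ≤ CT ^ 2 := by positivity
    refine ⟨?_, ?_, ?_, ?_, ?_⟩ <;> linarith
  obtain ⟨hb_1, hb_2, hb_3, hb_4, hb_5⟩ := hbig
  have hA2 : 2 * (A : ℝ) * M ≤ X := sq_le_of (by positivity) (by linarith) hb_1 hMM
  have hC3M : 4 * C3 * M ≤ X := sq_le_of (by positivity) (by linarith) hb_3 hMM
  have hCTM : CT * M ≤ X := sq_le_of (by linarith) (by linarith) hb_5 hMM
  -- the boxes
  obtain ⟨d, hd⟩ : ∃ d : ℕ, d = m0 ^ j * (A * σ) := ⟨_, rfl⟩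
  have hdr : (d : ℝ) = M * A * σ := by
    rw [hd, hM]
    push_cast
    ring
  have h2d : 2 * (d : ℝ) ≤ b := by
    rw [hdr, ← hXσ]
    have := mul_le_mul_of_nonneg_right hA2 hσ0.le
    linarith
  have hdb : d ≤ b := by
    have : (d : ℝ) ≤ b := by
      have : (0 : ℝ) ≤ d := Nat.cast_nonneg _
      linarith
    exact_mod_cast this
  have hcopM : Nat.Coprime n (m0 ^ j) := Nat.Coprime.pow_right j hcop
  obtain ⟨Fs, hFs1, hFs2, hFs3⟩ := hA t ht V σ hV hσ hspan n (m0 ^ j) hcopM hn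
    (Nat.one_le_iff_ne_zero.mpr (pow_ne_zero _ (by omega)))
  have hncast : ∀ (φ : K →+* ℂ) (x : Fin N → K) (a : Fin N), ‖φ ((n • x) a)‖ = n * ‖φ (x a)‖ := by
    intro φ x a
    rw [Pi.smul_apply, nsmul_eq_mul, map_mul, map_natCast, norm_mul]
    simp
  have h3 : ∀ x ∈ Fs, ∀ y ∈ Gx I t N V (b - d), n • y + x ∈ Gx I t N V (n * b) := by
    intro x hx y hy
    rw [mem_Gx] at hy ⊢
    obtain ⟨y', hy', hxy'⟩ := hFs1 x hx
    refine ⟨(LV I V).add_mem ((LV I V).nsmul_mem hy.1 n) (by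
      rw [hxy']
      exact (LV I V).nsmul_mem hy' _), fun φ a => ?_⟩
    rw [Pi.add_apply, map_add]
    refine (norm_add_le _ _).trans ?_
    rw [hncast]
    have e1 := mul_le_mul_of_nonneg_left (hy.2 φ a) hn0.le
    have e2 := hFs2 x hx φ a
    rw [Nat.cast_sub hdb] at e1
    refine (add_le_add e1 e2).trans (le_of_eq ?_)
    rw [hd]
    push_cast
    ring
  have h4 : ∀ x ∈ Fs, ∀ y ∈ LV I V, n • y + x ∈ Gx I t N V (n * b) → y ∈ Gx I t N V (b + d) := by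
    intro x hx y hy hxy
    rw [mem_Gx] at hxy ⊢
    refine ⟨hy, fun φ a => ?_⟩
    have e1 := hxy.2 φ a
    have e2 := hFs2 x hx φ a
    have e3 : ‖φ ((n • y) a)‖ ≤ ‖φ ((n • y + x) a)‖ + ‖φ (x a)‖ := by
      have e4 : φ ((n • y) a) = φ ((n • y + x) a) - φ (x a) := by
        rw [Pi.add_apply, map_add]
        ring
      rw [e4]
      exact norm_sub_le _ _
    rw [hncast] at e3
    have e5 : (n : ℝ) * ‖φ (y a)‖ ≤ n * (t φ * ((b + d : ℕ) : ℝ)) := by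
      refine (e3.trans (add_le_add e1 e2)).trans (le_of_eq ?_)
      rw [hd]
      push_cast
      ring
    exact le_of_mul_le_mul_left e5 hn0
  obtain ⟨q, hq1, hq2, hq3⟩ := comb (LV I V) (Gx I t N V) (fun a c h => Gx_mono hc0 ht h)
    (fun s x hx => (mem_Gx.1 hx).1) (zero_mem_Gx hc0 ht) n b d (by
      intro x hx
      have hnK : (n : K) ≠ 0 := by exact_mod_cast (show n ≠ 0 by omega)
      funext a
      have h1 := congrFun hx a
      rw [Pi.smul_apply, nsmul_eq_mul, Pi.zero_apply, mul_eq_zero] at h1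
      exact h1.resolve_left hnK) hdb Fs hFs3 h3 h4
  have hq1' : (1 : ℝ) ≤ q := by exact_mod_cast hq1
  have hq0 : (0 : ℝ) ≤ q := by linarith
  have hmain := hq2 w (Tx S I t N V κ (n * b)) (C9 * κ) hw.nonneg hw.le_one (by positivity) (by
    intro x hx y hy hy0 hxy
    obtain ⟨y', hy', hxy'⟩ := hFs1 x hx
    have := lip_est hc0 ht hΛ hw hm0 hm0S hn hb1 hXσ hj1 hy0 hy' hxy' (hFs2 x hx) (h3 x hx y hy)
      (by rw [← hκ]; exact hxy)
    rw [hC9, hκ]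
    exact this)
  rw [← nuw_eq, ← nuw_eq, ← nug_eq, ← nug_eq, ← nug_eq, ← nuthin_eq] at hmain
  rw [← nug_eq, ← nug_eq, ← nug_eq, ← nug_eq] at hq3
  obtain ⟨g, hg⟩ : ∃ g : ℝ, g = (nug K I t N V b : ℝ) := ⟨_, rfl⟩
  obtain ⟨gn, hgn⟩ : ∃ g : ℝ, g = (nug K I t N V (n * b) : ℝ) := ⟨_, rfl⟩
  obtain ⟨gp, hgp⟩ : ∃ g : ℝ, g = (nug K I t N V (b + d) : ℝ) := ⟨_, rfl⟩
  obtain ⟨gm, hgm⟩ : ∃ g : ℝ, g = (nug K I t N V (b - d) : ℝ) := ⟨_, rfl⟩
  obtain ⟨θ, hθ⟩ : ∃ θ : ℝ, θ = (nuthin S I t N V κ (n * b) : ℝ) := ⟨_, rfl⟩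
  rw [← hg, ← hgp, ← hgm, ← hθ] at hmain
  rw [← hg, ← hgn, ← hgp, ← hgm] at hq3
  have hgm0 : 0 ≤ gm := by
    rw [hgm]
    exact Nat.cast_nonneg _
  have hgmg : gm ≤ g := by
    rw [hgm, hg, nug_eq, nug_eq]
    exact_mod_cast card_le_card (Gx_mono hc0 ht (Nat.sub_le b d))
  have hg0 : 0 ≤ g := hgm0.trans hgmg
  -- the gap
  have hbd : (b : ℝ) / 2 ≤ ((b - d : ℕ) : ℝ) := by
    rw [Nat.cast_sub hdb]
    linarith
  have hgap : gp - gm ≤ C3 * (M / X) * g := by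
    have e1 : CL * (σ : ℝ) ≤ ((b - d : ℕ) : ℝ) := by
      refine le_trans ?_ hbd
      rw [← hXσ]
      have := mul_le_mul_of_nonneg_right hb_2 hσ0.le
      linarith
    have e2 := hL t ht V σ (b - d) (b + d) hV hσ hspan e1 (by omega)
    rw [← hR, ← hgm, ← hgp] at e2
    have e3 : (0 : ℝ) < ((b - d : ℕ) : ℝ) := lt_of_lt_of_le (by positivity) hbd
    have e4 := gap R gm gp ((b - d : ℕ) : ℝ) ((b + d : ℕ) : ℝ) σ CL e3 (by exact_mod_cast (by omega : b - d ≤ b + d))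
      (by
        rw [Nat.cast_sub hdb]
        push_cast
        linarith) hgm0 (by positivity) e2
    refine e4.trans ?_
    have e5 : (((b + d : ℕ) : ℝ) - ((b - d : ℕ) : ℝ)) / ((b - d : ℕ) : ℝ) ≤ 4 * A * (M / X) := by
      rw [div_le_iff₀ e3]
      have e6 : ((b + d : ℕ) : ℝ) - ((b - d : ℕ) : ℝ) = 2 * d := by
        rw [Nat.cast_sub hdb]
        push_cast
        ring
      rw [e6]
      have e7 : 4 * A * (M / X) * ((b : ℝ) / 2) = 2 * d := by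
        rw [hdr, ← hXσ]
        field_simp
        ring
      rw [← e7]
      gcongr
    have e6 : CL * σ / ((b - d : ℕ) : ℝ) ≤ 2 * CL * (M / X) := by
      rw [div_le_iff₀ e3]
      have e7 : 2 * CL * (1 / X) * ((b : ℝ) / 2) = CL * σ := by
        rw [← hXσ]
        field_simp
      calc CL * σ = 2 * CL * (1 / X) * ((b : ℝ) / 2) := e7.symm
        _ ≤ 2 * CL * (M / X) * ((b - d : ℕ) : ℝ) := by gcongr
    have e7 : 3 ^ R * ((R : ℝ) * ((((b + d : ℕ) : ℝ) - ((b - d : ℕ) : ℝ)) / ((b - d : ℕ) : ℝ)) +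
        CL * σ / ((b - d : ℕ) : ℝ)) ≤ C3 * (M / X) := by
      have e8 : (R : ℝ) * ((((b + d : ℕ) : ℝ) - ((b - d : ℕ) : ℝ)) / ((b - d : ℕ) : ℝ)) ≤
          R * (4 * A * (M / X)) := mul_le_mul_of_nonneg_left e5 (Nat.cast_nonneg _)
      have e9 := mul_le_mul_of_nonneg_left (add_le_add e8 e6) (show (0 : ℝ) ≤ 3 ^ R by positivity)
      refine e9.trans (le_of_eq ?_)
      rw [hC3]
      ring
    refine (mul_le_mul_of_nonneg_right e7 hgm0).trans ?_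
    have : 0 ≤ C3 * (M / X) := by positivity
    exact mul_le_mul_of_nonneg_left hgmg this
  have hMX : M / X ≤ κ := by
    rw [div_le_iff₀ hX0]
    exact hMκ
  have hgap1 : 2 * (C3 * (M / X)) ≤ 1 / 2 := by
    have : C3 * (M / X) = C3 * M / X := by ring
    rw [this]
    have e1 : C3 * M / X ≤ 1 / 4 := by
      rw [div_le_iff₀ hX0]
      linarith
    linarith
  have hgap2 : C3 * (M / X) ≤ C3 * κ := by gcongr
  -- many points
  have hlow : 1 ≤ 2 * D0 * κ * g := by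
    have hD00 : 0 < D0 := by
      have : (0 : ℝ) < D0 := by linarith
      exact_mod_cast this
    have e1 : CL * (σ : ℝ) ≤ ((D0 * σ : ℕ) : ℝ) := by
      push_cast
      have : CL ≤ D0 := by linarith
      gcongr
    have e2 : D0 * σ ≤ b := by
      have : ((D0 * σ : ℕ) : ℝ) ≤ b := by
        push_cast
        rw [← hXσ]
        gcongr
      exact_mod_cast this
    have e3 := hL t ht V σ (D0 * σ) b hV hσ hspan e1 e2
    rw [← hR, ← hg] at e3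
    have e4 : (0 : ℝ) < ((D0 * σ : ℕ) : ℝ) := by
      exact_mod_cast Nat.mul_pos hD00 hσ
    have e5 : (1 : ℝ) ≤ (nug K I t N V (D0 * σ) : ℝ) := by
      rw [nug_eq]
      exact_mod_cast card_pos.2 ⟨0, zero_mem_Gx hc0 ht _⟩
    have e6 := lowb R _ g ((D0 * σ : ℕ) : ℝ) b σ CL hR1 e4 (by exact_mod_cast e2) e5 (by
      push_cast
      have := mul_le_mul_of_nonneg_right hD0' hσ0.le
      linarith) e3
    push_cast at e6
    have hD0r : (0 : ℝ) < D0 := by exact_mod_cast hD00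
    rw [div_le_iff₀ (by positivity), ← hXσ] at e6
    have e7 : X ≤ 2 * g * D0 := by
      have e8 : 2 * g * (D0 * (σ : ℝ)) = 2 * g * D0 * σ := by ring
      rw [e8] at e6
      exact le_of_mul_le_mul_right e6 hσ0
    have e8 := mul_le_mul_of_nonneg_left e7 hκ0.le
    linarith
  have hgpos : 0 < g := by
    by_contra hcon
    have : g = 0 := le_antisymm (not_lt.1 hcon) hg0
    rw [this] at hlow
    norm_num at hlow
  -- the count for `n b`
  have hcnt : |gn - q * g| ≤ 2 * (C3 * (M / X)) * (q * g) := by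
    refine hq3.trans ?_
    have := mul_le_mul_of_nonneg_left hgap (show (0 : ℝ) ≤ 2 * q by positivity)
    linarith
  have hgn2 : gn ≤ 2 * (q * g) := by
    have e1 := (abs_le.1 hcnt).2
    have e2 := mul_le_mul_of_nonneg_right hgap1 (show 0 ≤ (q : ℝ) * g by positivity)
    have e3 : 0 ≤ (q : ℝ) * g := by positivity
    linarith
  -- powers of `κ`
  have hκη : κ ^ η ≤ κ ^ η1 := Real.rpow_le_rpow_of_exponent_ge hκ0 hκ1 hη1η
  have hκη1 : κ ≤ κ ^ η1 := by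
    have := Real.rpow_le_rpow_of_exponent_ge hκ0 hκ1 hη11
    rwa [Real.rpow_one] at this
  -- the small points
  have hthin : θ ≤ CT * κ ^ η1 * (2 * (q * g)) := by
    have e1 : CT * (σ : ℝ) ≤ κ * ((n * b : ℕ) : ℝ) := by
      push_cast
      have e2 : CT ≤ κ * X := by
        have e3 : CT * 2 ^ j ≤ X := le_trans (mul_le_mul_of_nonneg_left hM2 (by linarith)) hCTM
        have e4 := mul_le_mul_of_nonneg_left e3 hκ0.le
        have e5 : κ * (CT * 2 ^ j) = CT * (κ * 2 ^ j) := by ring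
        rw [e5, h2κ, mul_one] at e4
        exact e4
      have e3 := mul_le_mul_of_nonneg_right e2 hσ0.le
      have e4 : κ * (b : ℝ) ≤ κ * (n * b) := by
        have : (b : ℝ) ≤ n * b := by nlinarith
        gcongr
      rw [mul_assoc, hXσ] at e3
      linarith
    have e2 := hT t ht V σ (n * b) κ hV hσ hspan hκ0 hκ1 e1
    rw [← hθ, ← hgn] at e2
    refine e2.trans ?_
    have hgn0 : 0 ≤ gn := by
      rw [hgn]
      exact Nat.cast_nonneg _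
    have hκη0 : 0 ≤ κ ^ η := Real.rpow_nonneg hκ0.le _
    exact mul_le_mul (mul_le_mul_of_nonneg_left hκη (by linarith)) hgn2 hgn0
      (mul_nonneg (by linarith) (hκη0.trans hκη))
  have hsum : |nuw I t N V w (n * b) - q * nuw I t N V w b| ≤ C10 * κ ^ η1 * (q * g) := by
    refine hmain.trans ?_
    have hqg : 0 ≤ (q : ℝ) * g := by positivity
    have e1 : 2 * (q : ℝ) * (gp - gm) ≤ 2 * C3 * κ ^ η1 * (q * g) := by
      have e2 : gp - gm ≤ C3 * κ ^ η1 * g := by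
        refine hgap.trans ?_
        have : C3 * (M / X) ≤ C3 * κ ^ η1 := hgap2.trans (mul_le_mul_of_nonneg_left hκη1 hC30)
        exact mul_le_mul_of_nonneg_right this hg0
      have e3 := mul_le_mul_of_nonneg_left e2 (show (0 : ℝ) ≤ 2 * q by positivity)
      linarith
    have e2 : (q : ℝ) ≤ 2 * D0 * κ ^ η1 * (q * g) := by
      have e3 : 1 ≤ 2 * D0 * κ ^ η1 * g := by
        refine hlow.trans ?_
        gcongr
      have e4 := mul_le_mul_of_nonneg_left e3 hq0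
      linarith
    have e3 : C9 * κ * (q * g) ≤ C9 * κ ^ η1 * (q * g) := by gcongr
    have e4 : C10 * κ ^ η1 * (q * g) = 2 * C3 * κ ^ η1 * (q * g) + (2 * D0 * κ ^ η1 * (q * g) +
        CT * κ ^ η1 * (2 * (q * g)) + C9 * κ ^ η1 * (q * g)) := by
      rw [hC10]
      ring
    rw [e4]
    exact add_le_add e1 (add_le_add (add_le_add e2 hthin) e3)
  have hu0 : 0 ≤ nuw I t N V w b := by
    rw [nuw_eq]
    exact sum_nonneg fun x _ => hw.nonneg x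
  have hu1 : nuw I t N V w b ≤ g := by
    rw [nuw_eq, hg, nug_eq]
    have := sum_le_card_nsmul (Gx I t N V b) w 1 fun x _ => hw.le_one x
    simpa using this
  have hκ10 : 0 ≤ κ ^ η1 := Real.rpow_nonneg hκ0.le _
  have hfin := quo q g gn _ _ (C10 * κ ^ η1) (2 * (C3 * (M / X))) hq1' hgpos hu0 hu1 hsum hcnt
    (by positivity) (by positivity) hgap1
  rw [← hgn, ← hg]
  refine hfin.trans ?_
  have e1 : 2 * (C3 * (M / X)) ≤ 2 * C3 * κ ^ η1 := by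
    have := hgap2.trans (mul_le_mul_of_nonneg_left hκη1 hC30)
    linarith
  have e2 : κ ^ η1 ≤ 2 * ((σ : ℝ) / b) ^ η2 := by
    rw [hκ]
    refine hj2.trans (le_of_eq ?_)
    rw [hX, one_div_div]
  have e3 : 2 * (C10 * κ ^ η1 + 2 * (C3 * (M / X))) ≤ 2 * (C10 + 2 * C3) * κ ^ η1 := by linarith
  refine e3.trans ?_
  have e4 := mul_le_mul_of_nonneg_left e2 (show 0 ≤ 2 * (C10 + 2 * C3) by positivity)
  linarith

end Pool.Agent.Q53.EOW
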